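import Pool.Agent.H5.BHG.Stmts

/-!
Row FDG of the board `bhg`: the regions which are found (copy of `H5/DPG/FDS.lean`).
-/

set_option autoImplicit false

namespace Pool.BHG

open TMLib Pool.PG Pool.DPG

theorem fdg5_thm (hY : YSBStmt) : FDGStmt := by
  classical
  intro S C g X hS hX q hq
  obtain ⟨f1, f2, f3, f4⟩ := fsb_thm
  obtain ⟨r, hr, hany⟩ : ∃ r : Bool × List Bool, q = (r.1, cd S g X r) ∧
      (q.2.any fun b => b) = true := by
    unfold fd at hq
    rw [List.mem_filter, List.mem_map] at hq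
    obtain ⟨⟨r, _, hr⟩, hany⟩ := hq
    exact ⟨r, hr.symm, hany⟩
  subst hr
  have hany' : ((cd S g X r).any fun b => b) = true := hany
  change (fs g (att r.1 g X (cd S g X r))).Nonempty ∧
    Dmn (own g) (pri g) (fun v w => w ∈ suc g v) (fs g X) r.1 (fs g (att r.1 g X (cd S g X r))) ∧
    ∀ L : List Bool, L ≠ [] → Lab g (dif g X (att r.1 g X (cd S g X r))) L →
      Lab g X (jn g r.1 (att r.1 g X (cd S g X r)) L)
  have hne : S g (yy g X r) ≠ [] := by
    intro h0
    rw [cd, if_pos h0] at hany'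
    simp at hany'
  have hcnd : cd S g X r = msk g.length fun v => (yy g X r).getD v false &&
      ((S g (yy g X r)).getD v false == r.1) := by
    rw [cd, if_neg hne]
  have hlen : (cd S g X r).length = g.length := by
    rw [hcnd]
    exact (f1 g _).1
  obtain ⟨hYs, hYX, _, hYt⟩ := hY g X r hX
  obtain ⟨_, σ, hσ⟩ := hS (yy g X r) hYs hne
  have hfs : fs g X ∩ fs g (cd S g X r) =
      (fs g (yy g X r)).filter fun v => (S g (yy g X r)).getD v false = r.1 := by
    ext v
    rw [Finset.mem_inter, hcnd, (f1 g _).2, Finset.mem_filter, Finset.mem_filter, Finset.mem_range,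
      Bool.and_eq_true, beq_iff_eq]
    constructor
    · rintro ⟨_, h, h', h''⟩
      exact ⟨Finset.mem_filter.2 ⟨Finset.mem_range.2 h, h'⟩, h''⟩
    · rintro ⟨h, h'⟩
      have h8 := Finset.mem_filter.1 h
      exact ⟨hYX h, Finset.mem_range.1 h8.1, h8.2, h'⟩
  obtain ⟨hal, hatr⟩ := atl_thm g r.1 X (cd S g X r) hX.1
  rw [hfs] at hatr
  have hdmn : Dmn (own g) (pri g) (fun v w => w ∈ suc g v) (fs g X) r.1
      (fs g (att r.1 g X (cd S g X r))) :=
    dma_thm ℕ (own g) (pri g) (fun v w => w ∈ suc g v) (fs g X) (fs g (yy g X r)) _ r.1 _ σ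
      hX.2 hYX hYt hσ hatr
  refine ⟨?_, hdmn, ?_⟩
  · obtain ⟨v, hv⟩ := ((f3 g (cd S g X r) hlen).2.1 hany')
    refine ⟨v, hatr.1 ?_⟩
    rw [← hfs, Finset.mem_inter]
    refine ⟨?_, hv⟩
    rw [hcnd, (f1 g _).2, Finset.mem_filter, Finset.mem_range, Bool.and_eq_true] at hv
    exact hYX (Finset.mem_filter.2 ⟨Finset.mem_range.2 hv.1, hv.2.1⟩)
  · intro L hL ⟨hLl, τ, hτ⟩
    rw [f2] at hτ
    obtain ⟨σ', hσ'⟩ := zrm_thm ℕ (own g) (pri g) (fun v w => w ∈ suc g v) (fs g X) _ r.1
      (fun v => L.getD v false) τ hdmn hatr.2.2.2.1 (zss5_inst _ _ hτ)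
    have hjn : jn g r.1 (att r.1 g X (cd S g X r)) L = msk g.length fun v =>
        if (att r.1 g X (cd S g X r)).getD v false = true then r.1 else L.getD v false := by
      rw [jn, if_neg hL]
    refine ⟨by rw [hjn]; exact (f1 g _).1, σ', fds5_congr hσ' ?_⟩
    intro v hv
    have hvl : v < g.length := Finset.mem_range.1 (Finset.mem_filter.1 hv).1
    rw [hjn]
    have e1 : (msk g.length fun v => if (att r.1 g X (cd S g X r)).getD v false = true then r.1
        else L.getD v false).getD v false =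
        if (att r.1 g X (cd S g X r)).getD v false = true then r.1 else L.getD v false := by
      unfold msk
      rw [List.getD_eq_getElem?_getD, List.getElem?_map, List.getElem?_range hvl]
      rfl
    rw [e1]
    by_cases hm : v ∈ fs g (att r.1 g X (cd S g X r))
    · rw [if_pos (Finset.mem_filter.1 hm).2, if_pos hm]
    · rw [if_neg hm, if_neg]
      intro h
      exact hm (Finset.mem_filter.2 ⟨Finset.mem_range.2 hvl, h⟩)

end Pool.BHG
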