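import Pool.Agent.H5.BHG.Stmts2

/-!
Row GVM of the board `bhg`: games on digraphs in which any two vertices have a common successor.
-/

set_option autoImplicit false

namespace Pool.BHG

open Pool.PG Pool.DPG

theorem gvm5_len {n : ℕ} (o : Fin n → Bool) (p : Fin n → ℕ) (E : Fin n → Fin n → Bool) :
    (dgame o p E).length = n := by
  unfold dgame
  simp

theorem gvm5_suc {n : ℕ} (o : Fin n → Bool) (p : Fin n → ℕ) (E : Fin n → Fin n → Bool)
    (v : Fin n) (w : ℕ) : w ∈ suc (dgame o p E) v ↔ ∃ u : Fin n, E v u = true ∧ (u : ℕ) = w := by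
  have h3 : (v : ℕ) < (dgame o p E).length := by rw [gvm5_len]; exact v.2
  unfold suc vx
  rw [List.getD_eq_getElem _ _ h3]
  simp only [dgame, List.getElem_ofFn, List.map_id', List.bind_eq_flatMap, List.pure_def,
    List.mem_flatMap, List.mem_filter, List.mem_finRange, true_and, List.mem_singleton, Fin.eta]
  constructor
  · rintro ⟨u, hu, rfl⟩
    exact ⟨u, hu, rfl⟩
  · rintro ⟨u, hu, rfl⟩
    exact ⟨u, hu, rfl⟩

theorem gvm5_thm : GVMStmt := by
  intro n o q E hn hE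
  have hlen := gvm5_len o q E
  refine ⟨hlen, ?_, ?_⟩
  · intro v hv
    rw [hlen] at hv
    obtain ⟨w, hw⟩ : ∃ w : Fin n, (⟨v, hv⟩ : Fin n) ≠ w := by
      by_cases h0 : v = 0
      · exact ⟨⟨1, by omega⟩, fun h => by
          have := congrArg Fin.val h
          simp only at this
          omega⟩
      · exact ⟨⟨0, by omega⟩, fun h => by
          have := congrArg Fin.val h
          simp only at this
          omega⟩
    obtain ⟨u, hu, _⟩ := hE _ _ hw
    have hmem : (u : ℕ) ∈ suc (dgame o q E) ((⟨v, hv⟩ : Fin n) : ℕ) :=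
      (gvm5_suc o q E ⟨v, hv⟩ u).2 ⟨u, hu, rfl⟩
    refine ⟨List.ne_nil_of_mem hmem, fun w hw => ?_⟩
    obtain ⟨u', _, rfl⟩ := (gvm5_suc o q E ⟨v, hv⟩ w).1 hw
    rw [hlen]
    exact u'.2
  · intro t ht D B hD hB hDt hBt
    obtain ⟨v, hv⟩ := Finset.card_pos.1 (by omega : 0 < D.card)
    obtain ⟨w, hw⟩ := Finset.card_pos.1 (by omega : 0 < B.card)
    obtain ⟨hvn, hvo⟩ := hD v hv
    obtain ⟨hwn, hwo⟩ := hB w hw
    rw [hlen] at hvn hwn
    have hne : (⟨v, hvn⟩ : Fin n) ≠ ⟨w, hwn⟩ := by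
      intro h
      have h1 : v = w := congrArg Fin.val h
      rw [h1, hwo] at hvo
      exact Bool.noConfusion hvo
    obtain ⟨u, hu1, hu2⟩ := hE _ _ hne
    exact ⟨v, hv, w, hw, Or.inr (Or.inr ⟨u, (gvm5_suc o q E ⟨v, hvn⟩ u).2 ⟨u, hu1, rfl⟩,
      (gvm5_suc o q E ⟨w, hwn⟩ u).2 ⟨u, hu2, rfl⟩⟩)⟩

end Pool.BHG
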