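import Pool.Agent.H5.BHG.Stmts2

/-!
# Games in which every vertex has more than half of the vertices as successors
-/

set_option autoImplicit false

namespace Pool.BHG

open Pool.PG Pool.DPG

theorem hlf_thm (t : ℕ) (g : Game) (ht : 1 ≤ t) (hg : Valid g)
    (h : ∀ v < g.length, g.length < 2 * (suc g v).toFinset.card) : Mx2 t g := by
  intro D B hD hB hDt hBt
  obtain ⟨v, hv⟩ := Finset.card_pos.1 (by omega : 0 < D.card)
  obtain ⟨w, hw⟩ := Finset.card_pos.1 (by omega : 0 < B.card)
  refine ⟨v, hv, w, hw, Or.inr (Or.inr ?_)⟩
  by_contra hcon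
  push Not at hcon
  have hsub : ∀ x < g.length, (suc g x).toFinset ⊆ Finset.range g.length := fun x hx y hy =>
    Finset.mem_range.2 ((hg x hx).2 y (List.mem_toFinset.1 hy))
  have hdis : Disjoint (suc g v).toFinset (suc g w).toFinset := by
    rw [Finset.disjoint_left]
    intro u hu hu'
    exact hcon u (List.mem_toFinset.1 hu) (List.mem_toFinset.1 hu')
  have h1 : ((suc g v).toFinset ∪ (suc g w).toFinset).card ≤ g.length := by
    calc _ ≤ (Finset.range g.length).card :=
          Finset.card_le_card (Finset.union_subset (hsub v (hD v hv).1) (hsub w (hB w hw).1))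
      _ = g.length := Finset.card_range _
  rw [Finset.card_union_of_disjoint hdis] at h1
  have h2 := h v (hD v hv).1
  have h3 := h w (hB w hw).1
  omega

end Pool.BHG
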