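import Pool.Agent.H5.BHG.Stmts

/-!
Rows PFG and PUG of the board `bhg` (after `H66/DPG/PFN.lean` and `H50/DPG/PUP.lean`).
-/

set_option autoImplicit false

namespace Pool.BHG

open Filter TMLib Pool.PG Pool.DPG

section

variable {α : Type} [Enc α]

theorem pfg5_yy {g : α → Game} {X : α → List Bool} {q : α → Bool × List Bool}
    (hg : PTime g) (hX : PTime X) (hq : PTime q) : PTime (fun x => yy (g x) (X x) (q x)) :=
  (PFN66.dif' pma_all hg hX (PFN66.att' pma_all (PTime.not (PTime.fst hq)) hg hX
    (PFN66.dif' pma_all hg hX (PTime.snd hq)))).congr fun _ => rfl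

theorem pfg5_cd {S : Game → List Bool → List Bool}
    (hS : PTime (fun p : Game × List Bool => S p.1 p.2)) {g : α → Game} {X : α → List Bool}
    {q : α → Bool × List Bool} (hg : PTime g) (hX : PTime X) (hq : PTime q) :
    PTime (fun x => cd S (g x) (X x) (q x)) := by
  have hY := pfg5_yy hg hX hq
  have hB : PTime (fun x => S (g x) (yy (g x) (X x) (q x))) :=
    hS.comp (f := fun x => (g x, yy (g x) (X x) (q x))) (PTime.pair hg hY)
  refine (PTime.ite (c := fun x => S (g x) (yy (g x) (X x) (q x)) = [])
    (PTime.eq hB (PTime.const [])) (PTime.const []) (PFN66.msk' (g := g)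
      (f := fun x v => (yy (g x) (X x) (q x)).getD v false &&
        ((S (g x) (yy (g x) (X x) (q x))).getD v false == (q x).1)) hg ?_)).congr
    fun _ => rfl
  have up : ∀ {β : Type} [Enc β] {f : α → β}, PTime f → PTime fun r : α × ℕ => f r.1 := fun hf =>
    hf.comp (PTime.fst PTime.id)
  have w2 : PTime fun r : α × ℕ => r.2 := PTime.snd PTime.id
  exact PTime.and (PFN66.gt (up hY) w2) (PFN66.beq' (PFN66.gt (up hB) w2) (PTime.fst (up hq)))

end

theorem pfg5_thm : PFGStmt := by
  intro S C hS hC
  have g1 : PTime fun p : Game × List Bool => p.1 := PTime.fst PTime.id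
  have X1 : PTime fun p : Game × List Bool => p.2 := PTime.snd PTime.id
  have hfd : PTime (fun p : Game × List Bool => fd S C p.1 p.2) := by
    have g2 : PTime fun r : (Game × List Bool) × (Bool × List Bool) => r.1.1 :=
      PTime.fst (PTime.fst PTime.id)
    have X2 : PTime fun r : (Game × List Bool) × (Bool × List Bool) => r.1.2 :=
      PTime.snd (PTime.fst PTime.id)
    have q2 : PTime fun r : (Game × List Bool) × (Bool × List Bool) => r.2 := PTime.snd PTime.id
    exact (PTime.filter (g := fun (_ : Game × List Bool) (q : Bool × List Bool) =>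
        q.2.any fun b => b) (PTime.map (l := fun p : Game × List Bool => C p.1)
        (g := fun p q => (q.1, cd S p.1 p.2 q))
        (hC.comp (f := fun p : Game × List Bool => p.1) g1)
        (PTime.pair (PTime.fst q2) (pfg5_cd hS g2 X2 q2)))
      (PTime.any (l := fun r : (Game × List Bool) × (Bool × List Bool) => r.2.2)
        (g := fun _ b => b) (PTime.snd (PTime.snd PTime.id)) (PTime.snd PTime.id))).congr
      fun _ => rfl
  have hf : PTime (fun p : Game × List Bool => f1 S C p.1 p.2) :=
    (PTime.getD (PTime.head? hfd) (PTime.const ((true, []) : Bool × List Bool))).congr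
      fun p => by
        unfold f1
        cases fd S C p.1 p.2 <;> rfl
  refine ⟨hfd, ?_, hf⟩
  exact (PTime.ite (c := fun p : Game × List Bool => fd S C p.1 p.2 = [])
    (PTime.eq hfd (PTime.const []))
    (PFN66.dif' pma_all g1 X1 pma_all.2.2.2.2.2.1)
    (PFN66.dif' pma_all g1 X1 (PFN66.att' pma_all (PTime.fst hf) g1 X1 (PTime.snd hf)))).congr
      fun _ => rfl

theorem pug5_thm (h1 : PFGStmt) : PUGStmt := by
  intro S C R hS hC hR
  obtain ⟨hf1, -, hf3⟩ := h1 S C hS hC
  obtain ⟨-, hatt, -⟩ := pma_all
  have hfnd : PTime (fun p : Game × List Bool × List Bool => fd S C p.1 p.2.1) :=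
    hf1.comp (f := fun p : Game × List Bool × List Bool => (p.1, p.2.1)) (by fun_prop)
  have hfs : PTime (fun p : Game × List Bool × List Bool => f1 S C p.1 p.2.1) :=
    hf3.comp (f := fun p : Game × List Bool × List Bool => (p.1, p.2.1)) (by fun_prop)
  have hzs : PTime (fun p : Game × List Bool × List Bool => zs p.1 (R p.1) p.2.1 p.2.2) :=
    pzs_all (Game × List Bool × List Bool) (fun p X => R p.1 X) (fun p => p.1) (fun p => p.2.1)
      (fun p => p.2.2)
      (hR.comp (f := fun q : (Game × List Bool × List Bool) × List Bool => (q.1.1, q.2))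
        (by fun_prop)) (by fun_prop) (by fun_prop) (by fun_prop)
  have ha : ∀ i : Bool, PTime (fun p : Game × List Bool × List Bool =>
      att i p.1 p.2.1 (f1 S C p.1 p.2.1).2) := fun i =>
    (hatt i).comp (f := fun p : Game × List Bool × List Bool =>
      (p.1, p.2.1, (f1 S C p.1 p.2.1).2))
      (PTime.pair (by fun_prop) (PTime.pair (by fun_prop) (PTime.snd hfs)))
  have hat : PTime (fun p : Game × List Bool × List Bool =>
      att (f1 S C p.1 p.2.1).1 p.1 p.2.1 (f1 S C p.1 p.2.1).2) :=
    (PTime.cond (PTime.fst hfs) (ha true) (ha false)).congr fun p => by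
      cases (f1 S C p.1 p.2.1).1 <;> rfl
  have hjn : PTime (fun p : Game × List Bool × List Bool =>
      jn p.1 (f1 S C p.1 p.2.1).1 (att (f1 S C p.1 p.2.1).1 p.1 p.2.1 (f1 S C p.1 p.2.1).2)
        p.2.2) :=
    pup_jn.comp (f := fun p : Game × List Bool × List Bool =>
      (p.1, (f1 S C p.1 p.2.1).1, att (f1 S C p.1 p.2.1).1 p.1 p.2.1 (f1 S C p.1 p.2.1).2, p.2.2))
      (PTime.pair (by fun_prop) (PTime.pair (PTime.fst hfs) (PTime.pair hat (by fun_prop))))
  unfold upp
  refine PTime.ite ?_ ?_ (PTime.ite (pup_nil hfnd) hzs hjn)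
  · exact PTime.eq (PTime.any (l := fun p : Game × List Bool × List Bool => p.2.1)
      (g := fun _ b => b) (by fun_prop) (PTime.snd PTime.id)) (PTime.const false)
  · exact PFN66.msk' (g := fun p : Game × List Bool × List Bool => p.1) (f := fun _ _ => true)
      (by fun_prop) (PTime.const true)

end Pool.BHG
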