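import Pool.Agent.H5.BHG.Stmts2

/-!
# Board `bhg`, row STD: completeness of the algorithm (after `H24/BHG/STC.lean`)
-/

set_option autoImplicit false

namespace Pool.BHG

open Pool.PG Pool.DPG

theorem std5_thm (hLVH : LVHStmt) (hCMA : CMAStmt) (hCDC : CDCStmt) (hYSB : YSBStmt)
    (hCTM : CTMStmt) (hLSC : LSCStmt) (hLSN : LSNStmt) : STDStmt := by
  obtain ⟨hF1, hF2, hF3, -⟩ := fsb_thm
  intro t g hg hV hM
  have hfs : fs g (msk g.length fun _ => true) = Finset.range g.length := by
    rw [(hF1 g fun _ => true).2]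
    simp
  have hlen : (msk g.length fun _ => true).length = g.length := (hF1 g fun _ => true).1
  have hsub : Sub g (msk g.length fun _ => true) := by
    refine ⟨hlen, ?_⟩
    rw [hfs]
    intro v hv
    rw [Finset.mem_range] at hv
    obtain ⟨h1, h2⟩ := hV v hv
    obtain ⟨w, hw⟩ := List.exists_mem_of_ne_nil _ h1
    exact ⟨w, Finset.mem_range.2 (h2 w hw), hw⟩
  have hrange : ∀ X : List Bool, fs g X ⊆ Finset.range g.length := fun X =>
    Finset.filter_subset _ _
  have hcom : Com g (fs g (msk g.length fun _ => true)) := by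
    rw [hfs]
    intro v hv w _ _ u hu _
    exact Finset.mem_range.2 ((hV v (Finset.mem_range.1 hv)).2 u hu)
  refine hLVH (lvs t) (ct t) (lvs t) g (Com g) hg (hLSN t g) (hLSN t g)
    (hCMA g) ?_ (g.length + 1) _ hsub hcom ?_
  · intro X B' j hX hP hfd hS hB hne hdm hcl
    refine hLSC t g (dif g X B') j hg hS ?_
    by_contra hcon
    push Not at hcon
    have h2 : fo g (dif g X B') j = fo g X j \ fs g B' := by
      unfold fo
      rw [hF2]
      ext v
      simp only [Finset.mem_filter, Finset.mem_sdiff]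
      tauto
    rw [h2] at hcon
    have h3 : t < ((fs g B').filter fun v => own g v ≠ j).card := by
      by_contra hc
      push Not at hc
      obtain ⟨hC1, hC2⟩ := hCTM t g hg
      obtain ⟨T, hT, hBT⟩ := hC1 j (fs g B') (hrange B') hc
      refine hCDC (lvs t) (ct t) g X (j, T) (fs g B') (hLSN t g) hX hT ?_ hne hdm hBT hfd
      obtain ⟨y1, -, y3, -⟩ := hYSB g X (j, T) hX
      refine hLSC t g (yy g X (j, T)) (!j) hg y1 ?_
      refine le_trans (Finset.card_le_card ?_) (hC2 (j, T) hT)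
      intro v hv
      unfold fo at hv
      rw [Finset.mem_filter] at hv ⊢
      refine ⟨y3 hv.1, ?_⟩
      rw [hv.2]
      cases j <;> simp
    obtain ⟨D, hD, hDc⟩ := Finset.exists_subset_card_eq h3.le
    obtain ⟨E, hE, hEc⟩ := Finset.exists_subset_card_eq hcon.le
    have hD' : ∀ v ∈ D, v ∈ fs g B' ∧ own g v ≠ j := fun v hv => by
      have := hD hv
      rw [Finset.mem_filter] at this
      exact this
    have hE' : ∀ v ∈ E, v ∈ fs g X ∧ own g v = j ∧ v ∉ fs g B' := fun v hv => by
      have := hE hv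
      rw [Finset.mem_sdiff] at this
      unfold fo at this
      rw [Finset.mem_filter] at this
      exact ⟨this.1.1, this.1.2, this.2⟩
    have hlt : ∀ v, v ∈ fs g X → v < g.length := fun v hv => Finset.mem_range.1 (hrange X hv)
    have key : ∀ d ∈ D, ∀ e ∈ E, ¬ (d ∈ suc g e) ∧ ¬ (e ∈ suc g d) ∧
        ¬ ∃ u, u ∈ suc g d ∧ u ∈ suc g e := by
      intro d hd e he
      obtain ⟨d1, d2⟩ := hD' d hd
      obtain ⟨e1, e2, e3⟩ := hE' e he
      refine ⟨fun h => hcl e e1 e3 e2 d (hB d1) h d1, fun h => e3 (hdm.2.1 d d1 d2 e e1 h), ?_⟩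
      rintro ⟨u, hu1, hu2⟩
      have huX : u ∈ fs g X := hP d (hB d1) e e1 (by rw [e2]; exact d2) u hu1 hu2
      exact hcl e e1 e3 e2 u huX hu2 (hdm.2.1 d d1 d2 u huX hu1)
    cases j with
    | true =>
      obtain ⟨v, hv, w, hw, h⟩ := hM E D (fun v hv => ⟨hlt v (hE' v hv).1, (hE' v hv).2.1⟩)
        (fun w hw => ⟨hlt w (hB (hD' w hw).1), by
          have := (hD' w hw).2
          simpa using this⟩) hEc hDc
      rcases h with h | h | ⟨u, hu1, hu2⟩
      · exact (key w hw v hv).1 h
      · exact (key w hw v hv).2.1 h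
      · exact (key w hw v hv).2.2 ⟨u, hu2, hu1⟩
    | false =>
      obtain ⟨v, hv, w, hw, h⟩ := hM D E (fun v hv => ⟨hlt v (hB (hD' v hv).1), by
          have := (hD' v hv).2
          simpa using this⟩)
        (fun w hw => ⟨hlt w (hE' w hw).1, (hE' w hw).2.1⟩) hDc hEc
      rcases h with h | h | ⟨u, hu1, hu2⟩
      · exact (key v hv w hw).2.1 h
      · exact (key v hv w hw).1 h
      · exact (key v hv w hw).2.2 ⟨u, hu1, hu2⟩
  · rw [(hF3 g _ hlen).1, hfs, Finset.card_range]
    exact Nat.lt_succ_self _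

end Pool.BHG
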