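import Pool.Agent.H5.BHG.Stmts2

/-!
Row WTP of the board `bhg`: random digraphs in which any two vertices have a common successor.
-/

set_option autoImplicit false

namespace Pool.BHG

open Pool.PG Pool.DPG

/-- The probability of one entry. -/
noncomputable def wc (p : ℝ) (b : Bool) : ℝ := if b = true then p else 1 - p

theorem wtp5_one (p : ℝ) : ∑ b : Bool, wc p b = 1 := by
  simp [wc]

theorem wtp5_all (n : ℕ) (p : ℝ) : ∑ f : Fin n → Bool, ∏ x, wc p (f x) = 1 := by
  have h := Finset.prod_univ_sum (fun _ : Fin n => (Finset.univ : Finset Bool))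
    (fun _ b => wc p b)
  rw [Fintype.piFinset_univ] at h
  rw [← h]
  simp only [wtp5_one, Finset.prod_const_one]

theorem wtp5_two (n : ℕ) (p : ℝ) (v w : Fin n) (hvw : v ≠ w) :
    ∑ f : Fin n → Bool, (if f v = true ∧ f w = true then ∏ x, wc p (f x) else 0) = p ^ 2 := by
  have h := Finset.prod_univ_sum
    (fun x : Fin n => if x = v ∨ x = w then ({true} : Finset Bool) else Finset.univ)
    (fun _ b => wc p b)
  have h1 : (Fintype.piFinset fun x : Fin n =>
      if x = v ∨ x = w then ({true} : Finset Bool) else Finset.univ) =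
      Finset.univ.filter fun f : Fin n → Bool => f v = true ∧ f w = true := by
    ext f
    rw [Fintype.mem_piFinset, Finset.mem_filter]
    constructor
    · intro hf
      refine ⟨Finset.mem_univ _, ?_, ?_⟩
      · have := hf v
        simpa using this
      · have := hf w
        simpa using this
    · rintro ⟨-, h1, h2⟩ x
      split_ifs with hx
      · rcases hx with rfl | rfl
        · simpa using h1
        · simpa using h2
      · exact Finset.mem_univ _
  rw [h1] at h
  rw [← Finset.sum_filter, ← h]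
  have h2 : ∀ x : Fin n, (∑ b ∈ (if x = v ∨ x = w then ({true} : Finset Bool) else Finset.univ),
      wc p b) = if x = v ∨ x = w then p else 1 := by
    intro x
    split_ifs
    · simp [wc]
    · exact wtp5_one p
  rw [Finset.prod_congr rfl fun x _ => h2 x, Finset.prod_ite, Finset.prod_const,
    Finset.prod_const_one, mul_one]
  have h3 : (Finset.univ.filter fun x : Fin n => x = v ∨ x = w) = {v, w} := by
    ext x
    simp
  rw [h3, Finset.card_pair hvw]

theorem wtp5_col (n : ℕ) (p : ℝ) (v w : Fin n) (hvw : v ≠ w) :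
    ∑ f : Fin n → Bool, (if f v = true ∧ f w = true then 0 else ∏ x, wc p (f x)) =
      1 - p ^ 2 := by
  rw [← wtp5_all n p, ← wtp5_two n p v w hvw, ← Finset.sum_sub_distrib]
  refine Finset.sum_congr rfl fun f _ => ?_
  split_ifs <;> simp

theorem wtp5_pair (n : ℕ) (p : ℝ) (v w : Fin n) (hvw : v ≠ w) :
    ∑ E : Fin n → Fin n → Bool,
      (if ∀ u, ¬ (E v u = true ∧ E w u = true) then wt p E else 0) = (1 - p ^ 2) ^ n := by
  classical
  have h := Finset.prod_univ_sum (fun _ : Fin n => (Finset.univ : Finset (Fin n → Bool)))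
    (fun (_ : Fin n) (f : Fin n → Bool) =>
      if f v = true ∧ f w = true then (0 : ℝ) else ∏ x, wc p (f x))
  rw [Fintype.piFinset_univ] at h
  have h1 : ∏ _u : Fin n, ∑ f : Fin n → Bool,
      (if f v = true ∧ f w = true then (0 : ℝ) else ∏ x, wc p (f x)) = (1 - p ^ 2) ^ n := by
    rw [wtp5_col n p v w hvw, Finset.prod_const, Finset.card_univ, Fintype.card_fin]
  rw [← h1, h]
  refine Fintype.sum_equiv (Equiv.piComm fun _ _ => Bool) _ _ fun E => ?_
  by_cases hE : ∀ u, ¬ (E v u = true ∧ E w u = true)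
  · rw [if_pos hE]
    have h2 : ∀ u : Fin n, (if (Equiv.piComm (fun _ _ => Bool) E) u v = true ∧
        (Equiv.piComm (fun _ _ => Bool) E) u w = true then (0 : ℝ) else
        ∏ x, wc p ((Equiv.piComm (fun _ _ => Bool) E) u x)) = ∏ x, wc p (E x u) := fun u =>
      if_neg (hE u)
    rw [Finset.prod_congr rfl fun u _ => h2 u, Finset.prod_comm]
    rfl
  · rw [if_neg hE]
    push Not at hE
    obtain ⟨u, hu⟩ := hE
    refine (Finset.prod_eq_zero (Finset.mem_univ u) ?_).symm
    exact if_pos hu

theorem wtp5_nn {n : ℕ} {p : ℝ} (h0 : 0 ≤ p) (h1 : p ≤ 1) (E : Fin n → Fin n → Bool) :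
    0 ≤ wt p E :=
  Finset.prod_nonneg fun v _ => Finset.prod_nonneg fun w _ => by
    split_ifs
    · exact h0
    · linarith

theorem wtp5_thm : WTPStmt := by
  classical
  intro n p h0 h1
  have key : ∀ E : Fin n → Fin n → Bool, ¬ Cs E →
      wt p E ≤ ∑ q ∈ (Finset.univ : Finset (Fin n × Fin n)).filter (fun q => q.1 ≠ q.2),
        (if ∀ u, ¬ (E q.1 u = true ∧ E q.2 u = true) then wt p E else 0) := by
    intro E hE
    unfold Cs at hE
    push Not at hE
    obtain ⟨v, w, hvw, hu⟩ := hE
    have hmem : (v, w) ∈ (Finset.univ : Finset (Fin n × Fin n)).filter (fun q => q.1 ≠ q.2) :=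
      Finset.mem_filter.2 ⟨Finset.mem_univ _, hvw⟩
    refine le_trans (le_of_eq ?_) (Finset.single_le_sum (f := fun q : Fin n × Fin n =>
      (if ∀ u, ¬ (E q.1 u = true ∧ E q.2 u = true) then wt p E else 0)) (fun q _ => ?_) hmem)
    · rw [if_pos]
      intro u h
      exact hu u h.1 h.2
    · split_ifs
      · exact wtp5_nn h0 h1 E
      · exact le_rfl
  calc ∑ E ∈ Finset.univ.filter (fun E : Fin n → Fin n → Bool => ¬ Cs E), wt p E
      ≤ ∑ E ∈ Finset.univ.filter (fun E : Fin n → Fin n → Bool => ¬ Cs E),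
          ∑ q ∈ (Finset.univ : Finset (Fin n × Fin n)).filter (fun q => q.1 ≠ q.2),
          (if ∀ u, ¬ (E q.1 u = true ∧ E q.2 u = true) then wt p E else 0) :=
        Finset.sum_le_sum fun E hE => key E (Finset.mem_filter.1 hE).2
    _ ≤ ∑ E : Fin n → Fin n → Bool,
          ∑ q ∈ (Finset.univ : Finset (Fin n × Fin n)).filter (fun q => q.1 ≠ q.2),
          (if ∀ u, ¬ (E q.1 u = true ∧ E q.2 u = true) then wt p E else 0) := by
        refine Finset.sum_le_sum_of_subset_of_nonneg (Finset.filter_subset _ _) fun E _ _ => ?_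
        refine Finset.sum_nonneg fun q _ => ?_
        split_ifs
        · exact wtp5_nn h0 h1 E
        · exact le_rfl
    _ = ∑ q ∈ (Finset.univ : Finset (Fin n × Fin n)).filter (fun q => q.1 ≠ q.2),
          (1 - p ^ 2) ^ n := by
        rw [Finset.sum_comm]
        exact Finset.sum_congr rfl fun q hq => wtp5_pair n p q.1 q.2 (Finset.mem_filter.1 hq).2
    _ ≤ ∑ _q : Fin n × Fin n, (1 - p ^ 2) ^ n := by
        refine Finset.sum_le_sum_of_subset_of_nonneg (Finset.filter_subset _ _) fun q _ _ => ?_
        refine pow_nonneg ?_ n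
        nlinarith
    _ = (n : ℝ) ^ 2 * (1 - p ^ 2) ^ n := by
        rw [Finset.sum_const, Finset.card_univ, Fintype.card_prod, Fintype.card_fin, nsmul_eq_mul]
        push_cast
        ring

end Pool.BHG
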