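import Pool.Agent.H5.BHG.Stmts2
import Pool.Agent.H5.BHG.HLF
import Pool.Agent.H18.BHG.YSB
import Pool.Agent.H51.BHG.BYY
import Pool.Agent.H23.BHG.CDC
import Pool.Agent.H5.BHG.FDG
import Pool.Agent.H55.BHG.RCG
import Pool.Agent.H22.BHG.LVG
import Pool.Agent.H22.BHG.LVH
import Pool.Agent.H56.BHG.ONA
import Pool.Agent.H21.BHG.ONW
import Pool.Agent.H22.BHG.ONS
import Pool.Agent.H25.BHG.LSN
import Pool.Agent.H53.BHG.LSC
import Pool.Agent.H26.BHG.CTM
import Pool.Agent.H5.BHG.STD
import Pool.Agent.H3.BHG.TPG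
import Pool.Agent.H4.BHG.MXE
import Pool.Agent.H50.BHG.PON
import Pool.Agent.H62.BHG.PCT
import Pool.Agent.H5.BHG.PFG
import Pool.Agent.H52.BHG.PLG
import Pool.Agent.H71.BHG.PSO
import Pool.Agent.H74.BHG.CMA
import Pool.Agent.H5.BHG.WTP
import Pool.Agent.H5.BHG.GVM
import Pool.Agent.H55.BHG.FNH

/-!
# Parity games with common successors: assembly
-/

set_option autoImplicit false

namespace Pool.BHG

open Pool.PG Pool.DPG

theorem fdg_all : FDGStmt := fdg5_thm ysb_thm

theorem rcg_all : RCGStmt := rcg_thm fdg_all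

theorem cdc_all : CDCStmt := cdc_thm ysb_thm byy_thm

theorem onw_all : ONWStmt := onw_thm ona_thm

theorem onsS_all : ONSStmt := ons_thm onw_all

theorem lsn_all : LSNStmt := lsn_thm rcg_all onsS_all

theorem lvg_all : LVGStmt := lvg_thm fdg_all rcg_all

theorem lvh_all : LVHStmt := lvh_thm fdg_all rcg_all

theorem lsc_all : LSCStmt := lsc_thm lvg_all cdc_all ysb_thm onsS_all lsn_all

theorem std_all : STDStmt := std5_thm lvh_all cma_thm cdc_all ysb_thm ctm_thm lsc_all lsn_all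

theorem tpg_all : TPGStmt := tpg_thm rcg_all lsn_all

theorem pug_all : PUGStmt := pug5_thm pfg5_thm

theorem plg_all : PLGStmt := plg_thm pug_all pfg5_thm

theorem pso_all : PSOStmt := pso_thm plg_all pon_thm pct_thm

theorem fnh_all : FNHStmt := fnh_thm std_all tpg_all mxe_thm pso_all wtp5_thm gvm5_thm

end Pool.BHG
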