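import Pool.Agent.H5.BHG.Stmts4

/-!
# Extension of the board `bhg`, rows HL2, MN2, SN2, TP2, MX2
-/

set_option autoImplicit false

namespace Pool.BHG

open Pool.PG Pool.DPG

theorem sn25_thm : SN2Stmt := fun t g =>
  rcg_all (lvs t) (ct t) (lvs t) g (lsn_all t g) (lsn_all t g) (g.length + 1)

theorem mn25_thm : MN2Stmt := by
  intro t g hM v hv D B hD hB hDt hBt
  cases hj : own g v with
  | true =>
    obtain ⟨d, hd, w, hw, h⟩ := hM D B (fun d hd => ⟨(hD d hd).1, (hD d hd).2.1.trans hj⟩)
      (fun w hw => ⟨(hB w hw).1, by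
        have := (hB w hw).2.1
        rw [hj] at this
        simpa using this⟩) hDt hBt
    exact ⟨d, hd, w, hw, h⟩
  | false =>
    obtain ⟨w, hw, d, hd, h⟩ := hM B D (fun w hw => ⟨(hB w hw).1, by
        have := (hB w hw).2.1
        rw [hj] at this
        simpa using this⟩)
      (fun d hd => ⟨(hD d hd).1, (hD d hd).2.1.trans hj⟩) hBt hDt
    refine ⟨d, hd, w, hw, ?_⟩
    rcases h with h | h | ⟨u, h1, h2⟩
    · exact Or.inr (Or.inl h)
    · exact Or.inl h
    · exact Or.inr (Or.inr ⟨u, h2, h1⟩)

theorem hl25_thm : HL2Stmt := by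
  intro t g ht hg h v hv D B hD hB hDt hBt
  obtain ⟨w, hw⟩ := Finset.card_pos.1 (by omega : 0 < B.card)
  obtain ⟨hwn, hwo, hwm⟩ := hB w hw
  by_contra hcon
  push Not at hcon
  have hsub : ∀ x < g.length, (suc g x).toFinset ⊆ Finset.range g.length := fun x hx y hy =>
    Finset.mem_range.2 ((hg x hx).2 y (List.mem_toFinset.1 hy))
  have h1 : Disjoint (suc g v).toFinset (suc g w).toFinset := by
    rw [Finset.disjoint_left]
    intro u hu hu'
    exact hwm (Or.inr (Or.inr ⟨u, List.mem_toFinset.1 hu, List.mem_toFinset.1 hu'⟩))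
  have h2 : Disjoint ((suc g v).toFinset ∪ (suc g w).toFinset) D := by
    rw [Finset.disjoint_left]
    intro u hu hu'
    rcases Finset.mem_union.1 hu with h3 | h3
    · exact (hD u hu').2.2.2 (List.mem_toFinset.1 h3)
    · exact hcon u hu' w hw (Or.inr (Or.inl (List.mem_toFinset.1 h3)))
  have h3 : (((suc g v).toFinset ∪ (suc g w).toFinset) ∪ D).card ≤ g.length := by
    calc _ ≤ (Finset.range g.length).card :=
          Finset.card_le_card (Finset.union_subset
            (Finset.union_subset (hsub v hv) (hsub w hwn))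
            fun d hd => Finset.mem_range.2 (hD d hd).1)
      _ = g.length := Finset.card_range _
  rw [Finset.card_union_of_disjoint h2, Finset.card_union_of_disjoint h1] at h3
  have h4 := h v hv
  have h5 := h w hwn
  omega

end Pool.BHG
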