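import Pool.Agent.H5.BHG.Stmts4

/-!
# Extension of the board `bhg`, row PC2: the candidates (after `Pool/Agent/H62/BHG/PCT.lean`)
-/

set_option autoImplicit false

namespace Pool.BHG

open Filter TMLib Pool.PG Pool.DPG

theorem pc25_eq : PTime (fun q : (Game × ℕ) × ℕ => decide (q.2 = q.1.2)) :=
  (PFN66.beq' (f := fun q : (Game × ℕ) × ℕ => q.2) (g := fun q : (Game × ℕ) × ℕ => q.1.2)
    (PTime.snd PTime.id) (PTime.snd (PTime.fst PTime.id))).congr fun q => by
      by_cases h : q.2 = q.1.2
      · simp [h]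
      · simp [h]

theorem pc25_mem : PTime (fun q : (Game × ℕ) × ℕ => decide (q.2 ∈ suc q.1.1 q.1.2)) :=
  PFN66.mem' (l := fun q : (Game × ℕ) × ℕ => suc q.1.1 q.1.2) (v := fun q => q.2)
    (PFN66.suc' pv1_row (PTime.fst (PTime.fst PTime.id)) (PTime.snd (PTime.fst PTime.id)))
    (PTime.snd PTime.id)

theorem pc25_msk : PTime (fun p : Game × ℕ =>
    msk p.1.length fun u => !decide (u = p.2) && !decide (u ∈ suc p.1 p.2)) :=
  PFN66.msk' (g := fun p : Game × ℕ => p.1)
    (f := fun (p : Game × ℕ) u => !decide (u = p.2) && !decide (u ∈ suc p.1 p.2))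
    (PTime.fst PTime.id) (PTime.and (PTime.not pc25_eq) (PTime.not pc25_mem))

theorem pc25_thm : PC2Stmt := by
  refine (PTime.map (l := fun g : Game => List.range g.length)
    (g := fun (g : Game) (v : ℕ) => (own g v,
      msk g.length fun u => !decide (u = v) && !decide (u ∈ suc g v)))
    (PTime.range (PTime.length PTime.id))
    (PTime.pair (PFN66.own' pv1_row (PTime.fst PTime.id) (PTime.snd PTime.id))
      pc25_msk)).congr fun _ => rfl

end Pool.BHG
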