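import Pool.Agent.H5.BHG.Stmts4

/-!
# Extension of the board `bhg`, row TC2: completeness of the algorithm
-/

set_option autoImplicit false

namespace Pool.BHG

open Pool.PG Pool.DPG

theorem tc25_mt {g : Game} {v w : ℕ} (h : Mt g v w) : Mt g w v := by
  rcases h with h | h | ⟨u, h1, h2⟩
  · exact Or.inr (Or.inl h)
  · exact Or.inl h
  · exact Or.inr (Or.inr ⟨u, h2, h1⟩)

theorem tc25_thm (hSD2 : SD2Stmt) (hSN2 : SN2Stmt) : TC2Stmt := by
  obtain ⟨hF1, hF2, hF3, -⟩ := fsb_thm
  intro t g hg hV hM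
  have hfs : fs g (msk g.length fun _ => true) = Finset.range g.length := by
    rw [(hF1 g fun _ => true).2]
    simp
  have hlen : (msk g.length fun _ => true).length = g.length := (hF1 g fun _ => true).1
  have hsub : Sub g (msk g.length fun _ => true) := by
    refine ⟨hlen, ?_⟩
    rw [hfs]
    intro v hv
    rw [Finset.mem_range] at hv
    obtain ⟨h1, h2⟩ := hV v hv
    obtain ⟨w, hw⟩ := List.exists_mem_of_ne_nil _ h1
    exact ⟨w, Finset.mem_range.2 (h2 w hw), hw⟩
  have hrange : ∀ X : List Bool, fs g X ⊆ Finset.range g.length := fun X =>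
    Finset.filter_subset _ _
  have hcom : Com g (fs g (msk g.length fun _ => true)) := by
    rw [hfs]
    intro v hv w _ _ u hu _
    exact Finset.mem_range.2 ((hV v (Finset.mem_range.1 hv)).2 u hu)
  refine lvh_all (sl t) c2 (lvs t) g (Com g) hg (hSN2 t g) (lsn_all t g)
    (cma_thm g) ?_ (g.length + 1) _ hsub hcom ?_
  · intro X B' j hX hP hfd hS hB hne hdm hcl
    refine lsc_all t g (dif g X B') j hg hS ?_
    by_contra hcon
    push Not at hcon
    obtain ⟨v, hv⟩ := Finset.card_pos.1 (lt_of_le_of_lt (Nat.zero_le t) hcon)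
    unfold fo at hv
    rw [Finset.mem_filter, hF2, Finset.mem_sdiff] at hv
    obtain ⟨⟨hvX, hvB⟩, hvj⟩ := hv
    have hvn : v < g.length := Finset.mem_range.1 (hrange X hvX)
    let T : List Bool := msk g.length fun u => !decide (u = v) && !decide (u ∈ suc g v)
    have hTm : (j, T) ∈ c2 g := by
      unfold c2
      rw [List.mem_map]
      exact ⟨v, List.mem_range.2 hvn, by rw [hvj]⟩
    have hTf : ∀ u, u ∈ fs g T ↔ u < g.length ∧ u ≠ v ∧ u ∉ suc g v := by
      intro u
      show u ∈ fs g (msk g.length fun u => !decide (u = v) && !decide (u ∈ suc g v)) ↔ _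
      rw [(hF1 g _).2, Finset.mem_filter, Finset.mem_range]
      simp
    have hBT : fs g B' ⊆ fs g T := by
      intro b hb
      rw [hTf]
      refine ⟨Finset.mem_range.1 (hrange B' hb), fun h => hvB (h ▸ hb), fun h => ?_⟩
      exact hcl v hvX hvB hvj b (hB hb) h hb
    obtain ⟨y1, y2, y3, y4⟩ := ysb_thm g X (j, T) hX
    refine cdc_all (sl t) c2 g X (j, T) (fs g B') (hSN2 t g) hX hTm ?_ hne hdm hBT hfd
    refine hSD2 t g (yy g X (j, T)) hg y1 ?_ ?_
    · exact cma_thm g (!j) X (dif g X T) hX hP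
    · have hD : ∀ d ∈ fs g (yy g X (j, T)), own g d = j →
          d < g.length ∧ own g d = own g v ∧ d ≠ v ∧ d ∉ suc g v := by
        intro d hd hdj
        obtain ⟨h1, h2, h3⟩ := (hTf d).1 (y3 hd)
        exact ⟨h1, hdj.trans hvj.symm, h2, h3⟩
      have hW : ∀ w ∈ fs g (yy g X (j, T)), own g w ≠ j →
          w < g.length ∧ own g w ≠ own g v ∧ ¬ Mt g v w := by
        intro w hw hwj
        obtain ⟨h1, h2, h3⟩ := (hTf w).1 (y3 hw)
        refine ⟨h1, by rw [hvj]; exact hwj, ?_⟩
        rintro (h | h | ⟨u, hu1, hu2⟩)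
        · exact h3 h
        · exact ((hTf v).1 (y3 (y4 w hw hwj v hvX h))).2.1 rfl
        · have huX : u ∈ fs g X := hP v hvX w (y2 hw) (by rw [hvj]; exact fun h => hwj h.symm)
            u hu1 hu2
          exact ((hTf u).1 (y3 (y4 w hw hwj u huX hu2))).2.2 hu1
      intro D B hDD hBB hDt hBt
      cases j with
      | true =>
        exact hM v hvn D B (fun d hd => hD d (hDD d hd).1 (hDD d hd).2)
          (fun w hw => hW w (hBB w hw).1 (by rw [(hBB w hw).2]; exact Bool.false_ne_true))
          hDt hBt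
      | false =>
        obtain ⟨b, hb, d, hd, h⟩ := hM v hvn B D (fun b hb => hD b (hBB b hb).1 (hBB b hb).2)
          (fun w hw => hW w (hDD w hw).1 (by rw [(hDD w hw).2]; exact fun h => Bool.false_ne_true h.symm))
          hBt hDt
        exact ⟨d, hd, b, hb, tc25_mt h⟩
  · rw [(hF3 g _ hlen).1, hfs, Finset.card_range]
    exact Nat.lt_succ_self _

end Pool.BHG
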