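import Pool.Agent.H5.BHG.SD2
import Pool.Agent.H5.BHG.TC2
import Pool.Agent.H5.BHG.HL2
import Pool.Agent.H5.BHG.TP2
import Pool.Agent.H5.BHG.PC2
import Pool.Agent.H3.BHG.FN2
import Pool.Agent.H19.BHG.PS2

/-!
# Parity games with large outdegrees: assembly
-/

set_option autoImplicit false

namespace Pool.BHG

open Pool.PG Pool.DPG

theorem tc2_all : TC2Stmt := tc25_thm sd25_thm sn25_thm

theorem tp2_all : TP2Stmt := tp25_thm sn25_thm

theorem ps2_all : PS2Stmt := ps2_thm pc25_thm

theorem mn2_all : MN2Stmt := mn25_thm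

theorem hl2_all : HL2Stmt := hl25_thm

theorem fn2_all : FN2Stmt := fn2_thm tc2_all tp2_all mx25_thm mn2_all ps2_all

end Pool.BHG
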