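import Pool.Agent.H5.BHG.Stmts5

/-! # Second extension of the board `bhg`, row HL3 -/

set_option autoImplicit false

namespace Pool.BHG

open Pool.PG Pool.DPG

theorem hl35_exp (x : ℝ) (k : ℕ) (hx : 0 < x) : x ^ k = Real.exp ((k : ℝ) * Real.log x) := by
  rw [← Real.rpow_natCast, Real.rpow_def_of_pos hx]
  congr 1
  ring

theorem hl35_thm : HL3Stmt := by
  intro C
  refine ⟨⌈2 * |C|⌉₊ + 1, ?_⟩
  intro g hg h v hv w hw hown hmt
  have hsub : ∀ x < g.length, (suc g x).toFinset ⊆ Finset.range g.length := fun x hx y hy =>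
    Finset.mem_range.2 ((hg x hx).2 y (List.mem_toFinset.1 hy))
  set F := (Finset.range g.length).filter fun u => u ∉ suc g v ∧ u ∉ suc g w with hF
  have h1 : Disjoint (suc g v).toFinset (suc g w).toFinset := by
    rw [Finset.disjoint_left]
    intro u hu hu'
    exact hmt (Or.inr (Or.inr ⟨u, List.mem_toFinset.1 hu, List.mem_toFinset.1 hu'⟩))
  have h2 : Disjoint ((suc g v).toFinset ∪ (suc g w).toFinset) F := by
    rw [Finset.disjoint_left]
    intro u hu hu'
    rw [hF, Finset.mem_filter] at hu'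
    rcases Finset.mem_union.1 hu with h3 | h3
    · exact hu'.2.1 (List.mem_toFinset.1 h3)
    · exact hu'.2.2 (List.mem_toFinset.1 h3)
  have h3 : (((suc g v).toFinset ∪ (suc g w).toFinset) ∪ F).card ≤ g.length := by
    calc _ ≤ (Finset.range g.length).card :=
          Finset.card_le_card (Finset.union_subset
            (Finset.union_subset (hsub v hv) (hsub w hw)) (Finset.filter_subset _ _))
      _ = g.length := Finset.card_range _
  rw [Finset.card_union_of_disjoint h2, Finset.card_union_of_disjoint h1] at h3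
  have h3' : ((suc g v).toFinset.card : ℝ) + ((suc g w).toFinset.card : ℝ) + (F.card : ℝ) ≤
      (g.length : ℝ) := by exact_mod_cast h3
  have h4 := h v hv
  have h5 := h w hw
  have hn : (1 : ℝ) ≤ (g.length : ℝ) := by exact_mod_cast (by omega : 1 ≤ g.length)
  have hlog : 0 ≤ Real.log (g.length : ℝ) := Real.log_nonneg hn
  have h6 : (F.card : ℝ) ≤ 2 * |C| * Real.log g.length := by
    have := mul_le_mul_of_nonneg_right (le_abs_self C) hlog
    linarith
  have h7 : (2 * |C| : ℝ) ≤ ((⌈2 * |C|⌉₊ + 1 : ℕ) : ℝ) := by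
    push_cast
    linarith [Nat.le_ceil (2 * |C|)]
  have h8 : (2 : ℝ) ^ F.card ≤ ((g.length : ℝ) + 2) ^ (⌈2 * |C|⌉₊ + 1) := by
    rw [hl35_exp 2 _ (by norm_num), hl35_exp ((g.length : ℝ) + 2) _ (by linarith)]
    apply Real.exp_le_exp.2
    have l1 : Real.log 2 ≤ 1 := by
      have := Real.log_two_lt_d9
      linarith
    have l2 : Real.log (g.length : ℝ) ≤ Real.log ((g.length : ℝ) + 2) :=
      Real.log_le_log (by linarith) (by linarith)
    calc (F.card : ℝ) * Real.log 2 ≤ (F.card : ℝ) * 1 :=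
          mul_le_mul_of_nonneg_left l1 (Nat.cast_nonneg _)
      _ = (F.card : ℝ) := mul_one _
      _ ≤ 2 * |C| * Real.log g.length := h6
      _ ≤ ((⌈2 * |C|⌉₊ + 1 : ℕ) : ℝ) * Real.log g.length :=
          mul_le_mul_of_nonneg_right h7 hlog
      _ ≤ _ := mul_le_mul_of_nonneg_left l2 (Nat.cast_nonneg _)
  exact_mod_cast h8

end Pool.BHG
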