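import Pool.Agent.H5.BHG.Stmts5

/-!
# Second extension of the board `bhg`, row PS3 (after `H71/BHG/PSO.lean`, `H62/BHG/PCT.lean`)
-/

set_option autoImplicit false

namespace Pool.BHG

open Filter TMLib Pool.PG Pool.DPG

theorem ps35_eq : PTime (fun q : (Game × ℕ) × ℕ => decide (q.2 = q.1.2)) :=
  (PFN66.beq' (f := fun q : (Game × ℕ) × ℕ => q.2) (g := fun q : (Game × ℕ) × ℕ => q.1.2)
    (PTime.snd PTime.id) (PTime.snd (PTime.fst PTime.id))).congr fun q => by
      by_cases h : q.2 = q.1.2
      · simp [h]
      · simp [h]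

theorem ps35_mem : PTime (fun q : (Game × ℕ) × ℕ => decide (q.2 ∈ suc q.1.1 q.1.2)) :=
  PFN66.mem' (l := fun q : (Game × ℕ) × ℕ => suc q.1.1 q.1.2) (v := fun q => q.2)
    (PFN66.suc' pv1_row (PTime.fst (PTime.fst PTime.id)) (PTime.snd (PTime.fst PTime.id)))
    (PTime.snd PTime.id)

theorem ps35_msk : PTime (fun p : Game × ℕ =>
    msk p.1.length fun u => !decide (u = p.2) && !decide (u ∈ suc p.1 p.2)) :=
  PFN66.msk' (g := fun p : Game × ℕ => p.1)
    (f := fun (p : Game × ℕ) u => !decide (u = p.2) && !decide (u ∈ suc p.1 p.2))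
    (PTime.fst PTime.id) (PTime.and (PTime.not ps35_eq) (PTime.not ps35_mem))

theorem ps35_c4 : PTime c4 := by
  refine (PTime.map (l := fun g : Game => List.range g.length)
    (g := fun (g : Game) (v : ℕ) => (own g v,
      msk g.length fun u => !decide (u = v) && !decide (u ∈ suc g v)))
    (PTime.range (PTime.length PTime.id))
    (PTime.pair (PFN66.own' pv1_row (PTime.fst PTime.id) (PTime.snd PTime.id))
      ps35_msk)).congr fun _ => rfl

theorem ps35_c3 : PTime c3 := (PTime.append pct_thm.1 ps35_c4).congr fun _ => rfl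

theorem ps35_sb (c : ℕ) : PTime (fun p : Game × List Bool => sb c p.1 p.2) := by
  have h1 : PTime (fun p : Game × List Bool => decide (one p.1 p.2 = [])) :=
    (PTime.eq pon_thm (PTime.const []))
  exact (PTime.ite h1 (pbr_all c) pon_thm).congr fun p => by
    unfold sb
    by_cases h : one p.1 p.2 = [] <;> simp [h]

theorem ps35_all : PTime (fun g : Game => msk g.length fun _ => true) :=
  (PFN66.msk' (g := fun g : Game => g) (f := fun _ _ => true) PTime.id (PTime.const true)).congr
    fun _ => rfl

theorem ps35_thm : PS3Stmt := by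
  intro c
  have h2 : PTime (fun p : Game × List Bool => lg c p.1 p.2) :=
    (plg_all (sb c) c3 (sb c) (ps35_sb c) ps35_c3 (ps35_sb c)).congr fun _ => rfl
  have h3 : PTime (fun p : Game × List Bool => lvg (lg c) c4 one p.1 p.2) :=
    plg_all (lg c) c4 one h2 ps35_c4 pon_thm
  have h4 : PTime (fun g : Game => lvg (lg c) c4 one g (msk g.length fun _ => true)) :=
    PTime.comp (g := fun p : Game × List Bool => lvg (lg c) c4 one p.1 p.2)
      (f := fun g : Game => (g, msk g.length fun _ => true)) h3
      (PTime.pair (f := fun g : Game => g) (g := fun g : Game => msk g.length fun _ => true)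
        PTime.id ps35_all)
  exact h4.congr fun _ => rfl

end Pool.BHG
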