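import Pool.Agent.H5.BHG.Stmts5

/-!
# Second extension of the board `bhg`, rows TC3, SN3: completeness of the algorithm
-/

set_option autoImplicit false

namespace Pool.BHG

open Pool.PG Pool.DPG

theorem sn35_thm (hSB3 : SB3Stmt) : SN3Stmt := fun c g =>
  rcg_all (sb c) c3 (sb c) g (hSB3.1 c g) (hSB3.1 c g) (g.length + 1)

theorem tc35_thm (hLG3 : LG3Stmt) (hSN3 : SN3Stmt) : TC3Stmt := by
  obtain ⟨hF1, hF2, hF3, -⟩ := fsb_thm
  intro c g hg hV hM
  have hfs : fs g (msk g.length fun _ => true) = Finset.range g.length := by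
    rw [(hF1 g fun _ => true).2]
    simp
  have hlen : (msk g.length fun _ => true).length = g.length := (hF1 g fun _ => true).1
  have hsub : Sub g (msk g.length fun _ => true) := by
    refine ⟨hlen, ?_⟩
    rw [hfs]
    intro v hv
    rw [Finset.mem_range] at hv
    obtain ⟨h1, h2⟩ := hV v hv
    obtain ⟨w, hw⟩ := List.exists_mem_of_ne_nil _ h1
    exact ⟨w, Finset.mem_range.2 (h2 w hw), hw⟩
  have hrange : ∀ X : List Bool, fs g X ⊆ Finset.range g.length := fun X =>
    Finset.filter_subset _ _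
  have hcom : Com g (fs g (msk g.length fun _ => true)) := by
    rw [hfs]
    intro v hv w _ _ u hu _
    exact Finset.mem_range.2 ((hV v (Finset.mem_range.1 hv)).2 u hu)
  refine lvh_all (lg c) c4 one g (Com g) hg (hSN3 c g) (onsS_all.1 g)
    (cma_thm g) ?_ (g.length + 1) _ hsub hcom ?_
  · intro X B' j hX hP hfd hS hB hne hdm hcl
    refine onsS_all.2 g (dif g X B') (!j) hg hS.1 ?_
    intro v hv
    rw [hF2, Finset.mem_sdiff] at hv
    obtain ⟨hvX, hvB⟩ := hv
    by_contra hvj'
    have hvj : own g v = j := by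
      cases h1 : own g v <;> cases h2 : j <;> simp_all
    have hvn : v < g.length := Finset.mem_range.1 (hrange X hvX)
    let T : List Bool := msk g.length fun u => !decide (u = v) && !decide (u ∈ suc g v)
    have hTm : (j, T) ∈ c4 g := by
      unfold c4
      rw [List.mem_map]
      exact ⟨v, List.mem_range.2 hvn, by rw [hvj]⟩
    have hTf : ∀ u, u ∈ fs g T ↔ u < g.length ∧ u ≠ v ∧ u ∉ suc g v := by
      intro u
      show u ∈ fs g (msk g.length fun u => !decide (u = v) && !decide (u ∈ suc g v)) ↔ _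
      rw [(hF1 g _).2, Finset.mem_filter, Finset.mem_range]
      simp
    have hBT : fs g B' ⊆ fs g T := by
      intro b hb
      rw [hTf]
      refine ⟨Finset.mem_range.1 (hrange B' hb), fun h => hvB (h ▸ hb), fun h => ?_⟩
      exact hcl v hvX hvB hvj b (hB hb) h hb
    obtain ⟨y1, y2, y3, y4⟩ := ysb_thm g X (j, T) hX
    refine cdc_all (lg c) c4 g X (j, T) (fs g B') (hSN3 c g) hX hTm ?_ hne hdm hBT hfd
    refine hLG3 c g (yy g X (j, T)) (!j) hg y1 ?_
    intro w hw hwj'
    have hwj : own g w ≠ j := by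
      rw [hwj']
      cases j <;> simp
    obtain ⟨h1, h2, h3⟩ := (hTf w).1 (y3 hw)
    have hnm : ¬ Mt3 g v w := by
      rintro (h | h | ⟨u, hu1, hu2⟩)
      · exact h3 h
      · exact ((hTf v).1 (y3 (y4 w hw hwj v hvX h))).2.1 rfl
      · have huX : u ∈ fs g X := hP v hvX w (y2 hw) (by rw [hvj]; exact fun h => hwj h.symm)
          u hu1 hu2
        exact ((hTf u).1 (y3 (y4 w hw hwj u huX hu2))).2.2 hu1
    refine le_trans (Nat.pow_le_pow_right (by norm_num) (Finset.card_le_card ?_))
      (hM v hvn w h1 (by rw [hvj]; exact hwj) hnm)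
    intro u hu
    rw [Finset.mem_filter] at hu ⊢
    obtain ⟨h4, -, h5⟩ := (hTf u).1 (y3 hu.1)
    exact ⟨Finset.mem_range.2 h4, h5, hu.2⟩
  · rw [(hF3 g _ hlen).1, hfs, Finset.card_range]
    exact Nat.lt_succ_self _

end Pool.BHG
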