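import Pool.Agent.H5.BHG.LG3
import Pool.Agent.H5.BHG.TC3
import Pool.Agent.H5.BHG.TP3
import Pool.Agent.H5.BHG.HL3
import Pool.Agent.H5.BHG.PS3
import Pool.Agent.H5.BHG.FN3
import Pool.Agent.H53.BHG.MX3

/-!
# Parity games with large outdegrees: assembly
-/

set_option autoImplicit false

namespace Pool.BHG

open Pool.PG Pool.DPG

theorem sn3_all : SN3Stmt := sn35_thm sb35_thm

theorem tc3_all : TC3Stmt := tc35_thm (lg35_thm sb35_thm) sn3_all

theorem fn3_all : FN3Stmt := fn35_thm tc3_all (tp35_thm sn3_all) mx3_thm hl35_thm ps35_thm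

end Pool.BHG
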