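import Pool.Agent.H5.DPG.Graph

/-!
# Parity games with common successors: definitions of the statement
-/

set_option autoImplicit false

namespace Pool.BHG

open Pool.PG

/-- `A g` is the list of the winners of the vertices of `g`. -/
def Solves (A : Game → List Bool) (g : Game) : Prop :=
  (A g).length = g.length ∧ ∀ v < g.length, Win g ((A g).getD v false) v

/-- Any `t` vertices of `◇` and any `t` vertices of `□` contain a vertex `v` of `◇` and a vertex `w` of
`□` which are joined by an arc or have a common successor. -/
def Meet (t : ℕ) (g : Game) : Prop :=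
  ∀ D B : Finset ℕ, (∀ v ∈ D, v < g.length ∧ own g v = true) →
    (∀ w ∈ B, w < g.length ∧ own g w = false) → D.card = t → B.card = t →
    ∃ v ∈ D, ∃ w ∈ B, w ∈ suc g v ∨ v ∈ suc g w ∨ ∃ u ∈ suc g v, u ∈ suc g w

/-- The probability of the digraph `E` if every arc is present with probability `p`,
independently. -/
noncomputable def prob {n : ℕ} (p : ℝ) (E : Fin n → Fin n → Bool) : ℝ :=
  ∏ v, ∏ w, if E v w = true then p else 1 - p

end Pool.BHG
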