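import Pool.Agent.H5.BHG.HL4
import Pool.Agent.H5.BHG.All3

/-! # The theorem for the sums of two outdegrees -/

set_option autoImplicit false

namespace Pool.BHG

open Filter TMLib Pool.PG Pool.DPG

theorem fn45_all (C : ℝ) : ∃ A : Game → List Bool, N68a2faeb.IsPolyTime A ∧
    (∀ g : Game, Valid g → A g ≠ [] → (A g).length = g.length ∧
      ∀ v < g.length, Win g ((A g).getD v false) v) ∧
    ∀ g : Game, Valid g →
      (∀ v < g.length, ∀ w < g.length, own g v = true → own g w = false →
        (g.length : ℝ) - C * Real.log g.length ≤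
          ((suc g v).toFinset.card : ℝ) + ((suc g w).toFinset.card : ℝ)) →
      (A g).length = g.length ∧ ∀ v < g.length, Win g ((A g).getD v false) v := by
  obtain ⟨c, hc⟩ := hl45_thm C
  have hTP3 : TP3Stmt := tp35_thm sn3_all
  refine ⟨fun g => so3 c (cmp g), bot_all.1 (List Bool) (so3 c) (ps35_thm c), ?_, ?_⟩
  · intro g hg hne
    exact fn35_win hTP3 c g hg hne
  · intro g hg hM
    by_cases h0 : so3 c (cmp g) = []
    · have hlen : (Pool.PG.cmp g).length = g.length := by simp [Pool.PG.cmp]
      have hg0 : g.length = 0 := by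
        by_contra hne
        exact tc3_all c (cmp g) (by rw [hlen]; omega) (cmw g hg).1
          (mx3_thm c g hg (hc g hg hM)) h0
      refine ⟨?_, fun v hvl => by omega⟩
      show (so3 c (cmp g)).length = g.length
      rw [h0, hg0]
      rfl
    · exact fn35_win hTP3 c g hg h0

end Pool.BHG
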