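import Pool.Agent.H5.BHG.PadDefs

/-! # The winners of the padded game (copy of `H27/BHG/PDW.lean`, with `M` for `c * g.length`) -/

set_option autoImplicit false

namespace Pool.BHG

open Filter TMLib Pool.PG

private lemma pw2_len (M : ℕ) (g : Game) :
    (padM M g).length = g.length + M + M := by
  simp only [padM, List.length_append, List.length_map, List.length_range]

private lemma pw2_vx0 (M : ℕ) (g : Game) (v : ℕ) (hv : v < g.length) :
    vx (padM M g) v = ((vx g v).1, (vx g v).2 ++ (List.range M).map fun x =>
      x + (if (vx g v).1.1 = true then g.length + M else g.length)) := by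
  unfold vx padM
  rw [List.append_assoc, List.getD_append _ _ _ _ (by rwa [List.length_map]),
    List.getD_eq_getElem _ _ (by rwa [List.length_map]), List.getElem_map,
    List.getD_eq_getElem _ _ hv]

private lemma pw2_vx1 (M : ℕ) (g : Game) (v : ℕ) (h1 : g.length ≤ v)
    (h2 : v < g.length + M) :
    vx (padM M g) v = ((true, 0), (List.range M).map fun x => x + g.length) := by
  unfold vx padM
  rw [List.append_assoc, List.getD_append_right _ _ _ _ (by rwa [List.length_map]),
    List.length_map,
    List.getD_append _ _ _ _ (by rw [List.length_map, List.length_range]; omega),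
    List.getD_eq_getElem _ _ (by rw [List.length_map, List.length_range]; omega),
    List.getElem_map]

private lemma pw2_vx2 (M : ℕ) (g : Game) (v : ℕ) (h1 : g.length + M ≤ v)
    (h2 : v < g.length + M + M) :
    vx (padM M g) v = ((false, 1), (List.range M).map fun x =>
      x + (g.length + M)) := by
  unfold vx padM
  rw [List.getD_append_right _ _ _ _ (by
      rw [List.length_append, List.length_map, List.length_map, List.length_range]; exact h1),
    List.length_append, List.length_map, List.length_map, List.length_range,
    List.getD_eq_getElem _ _ (by rw [List.length_map, List.length_range]; omega),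
    List.getElem_map]

private lemma pw2_own0 (M : ℕ) (g : Game) (v : ℕ) (hv : v < g.length) :
    own (padM M g) v = own g v := by
  unfold own
  rw [pw2_vx0 M g v hv]

private lemma pw2_pri0 (M : ℕ) (g : Game) (v : ℕ) (hv : v < g.length) :
    pri (padM M g) v = pri g v := by
  unfold pri
  rw [pw2_vx0 M g v hv]

private lemma pw2_suc0 (M : ℕ) (g : Game) (v : ℕ) (hv : v < g.length) (w : ℕ) :
    w ∈ suc (padM M g) v ↔ w ∈ suc g v ∨
      (own g v = true ∧ g.length + M ≤ w ∧
        w < g.length + M + M) ∨
      (own g v = false ∧ g.length ≤ w ∧ w < g.length + M) := by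
  unfold suc own
  rw [pw2_vx0 M g v hv]
  simp only [List.mem_append, List.mem_map, List.mem_range]
  refine or_congr Iff.rfl ?_
  cases (vx g v).1.1
  · simp only [Bool.false_eq_true, if_false, false_and, false_or, true_and]
    constructor
    · rintro ⟨a, ha, rfl⟩
      omega
    · rintro ⟨h1, h2⟩
      exact ⟨w - g.length, by omega, by omega⟩
  · simp only [if_true, true_and, Bool.true_eq_false, false_and, or_false]
    constructor
    · rintro ⟨a, ha, rfl⟩
      omega
    · rintro ⟨h1, h2⟩
      exact ⟨w - (g.length + M), by omega, by omega⟩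

private lemma pw2_suc1 (M : ℕ) (g : Game) (v : ℕ) (h1 : g.length ≤ v)
    (h2 : v < g.length + M) (w : ℕ) :
    w ∈ suc (padM M g) v ↔ g.length ≤ w ∧ w < g.length + M := by
  unfold suc
  rw [pw2_vx1 M g v h1 h2]
  simp only [List.mem_map, List.mem_range]
  constructor
  · rintro ⟨a, ha, rfl⟩
    omega
  · rintro ⟨h1, h2⟩
    exact ⟨w - g.length, by omega, by omega⟩

private lemma pw2_suc2 (M : ℕ) (g : Game) (v : ℕ) (h1 : g.length + M ≤ v)
    (h2 : v < g.length + M + M) (w : ℕ) :
    w ∈ suc (padM M g) v ↔ g.length + M ≤ w ∧
      w < g.length + M + M := by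
  unfold suc
  rw [pw2_vx2 M g v h1 h2]
  simp only [List.mem_map, List.mem_range]
  constructor
  · rintro ⟨a, ha, rfl⟩
    omega
  · rintro ⟨h1, h2⟩
    exact ⟨w - (g.length + M), by omega, by omega⟩

private lemma pw2_won1 (M : ℕ) (g : Game) (v : ℕ) (x : ℕ → ℕ) (hx : Play (padM M g) v x) (k : ℕ)
    (h1 : g.length ≤ x k) (h2 : x k < g.length + M) : WonBy (padM M g) true x := by
  have hk : ∀ n, k ≤ n → g.length ≤ x n ∧ x n < g.length + M := by
    intro n hn
    induction n, hn using Nat.le_induction with
    | base => exact ⟨h1, h2⟩
    | succ n hn ih => exact (pw2_suc1 M g _ ih.1 ih.2 _).1 (hx.2 n)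
  have hp : ∀ n, k ≤ n → pri (padM M g) (x n) = 0 := by
    intro n hn
    unfold pri
    rw [pw2_vx1 M g _ (hk n hn).1 (hk n hn).2]
  refine ⟨0, ?_, Eventually.of_forall (fun n => Nat.zero_le _), by simp⟩
  exact Eventually.frequently (eventually_atTop.2 ⟨k, hp⟩)

private lemma pw2_won2 (M : ℕ) (g : Game) (v : ℕ) (x : ℕ → ℕ) (hx : Play (padM M g) v x) (k : ℕ)
    (h1 : g.length + M ≤ x k)
    (h2 : x k < g.length + M + M) : WonBy (padM M g) false x := by
  have hk : ∀ n, k ≤ n → g.length + M ≤ x n ∧
      x n < g.length + M + M := by
    intro n hn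
    induction n, hn using Nat.le_induction with
    | base => exact ⟨h1, h2⟩
    | succ n hn ih => exact (pw2_suc2 M g _ ih.1 ih.2 _).1 (hx.2 n)
  have hp : ∀ n, k ≤ n → pri (padM M g) (x n) = 1 := by
    intro n hn
    unfold pri
    rw [pw2_vx2 M g _ (hk n hn).1 (hk n hn).2]
  refine ⟨1, ?_, eventually_atTop.2 ⟨k, fun n hn => (hp n hn).ge⟩, by simp⟩
  exact Eventually.frequently (eventually_atTop.2 ⟨k, hp⟩)

private lemma pw2_valid (M : ℕ) (g : Game) (hV : Valid g) : Valid (padM M g) := by
  intro v hv
  rw [pw2_len] at hv ⊢
  rcases Nat.lt_or_ge v g.length with h | h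
  · constructor
    · obtain ⟨w, hw⟩ := List.exists_mem_of_ne_nil _ (hV v h).1
      exact List.ne_nil_of_mem ((pw2_suc0 M g v h w).2 (Or.inl hw))
    · intro w hw
      rcases (pw2_suc0 M g v h w).1 hw with h1 | h1 | h1
      · have := (hV v h).2 w h1
        omega
      · omega
      · omega
  · rcases Nat.lt_or_ge v (g.length + M) with h' | h'
    · constructor
      · exact List.ne_nil_of_mem ((pw2_suc1 M g v h h' v).2 ⟨h, h'⟩)
      · intro w hw
        have := (pw2_suc1 M g v h h' w).1 hw
        omega
    · constructor
      · exact List.ne_nil_of_mem ((pw2_suc2 M g v h' hv v).2 ⟨h', hv⟩)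
      · intro w hw
        have := (pw2_suc2 M g v h' hv w).1 hw
        omega

private lemma pw2_sol (M : ℕ) (g : Game) (hV : Valid g) (W : ℕ → Bool) (σ : ℕ → ℕ)
    (hS : Sol g W σ) :
    Sol (padM M g) (fun v => if v < g.length then W v else decide (v < g.length + M))
      (fun v => if v < g.length then σ v else v) := by
  have hσ : ∀ v < g.length, σ v < g.length := fun v hv => (hV v hv).2 _ (hS.mem v hv)
  refine ⟨?_, ?_, ?_, ?_⟩
  · -- mem
    intro v hv
    rw [pw2_len] at hv
    show (if v < g.length then σ v else v) ∈ suc (padM M g) v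
    rcases Nat.lt_or_ge v g.length with h | h
    · rw [if_pos h]
      exact (pw2_suc0 M g v h _).2 (Or.inl (hS.mem v h))
    · rw [if_neg (Nat.not_lt.2 h)]
      rcases Nat.lt_or_ge v (g.length + M) with h' | h'
      · exact (pw2_suc1 M g v h h' v).2 ⟨h, h'⟩
      · exact (pw2_suc2 M g v h' hv v).2 ⟨h', hv⟩
  · -- stay
    intro v hv hov
    rcases Nat.lt_or_ge v g.length with h | h
    · rw [if_pos h] at hov
      rw [if_pos h, if_pos h, if_pos (hσ v h)]
      rw [pw2_own0 M g v h] at hov
      exact hS.stay v h hov
    · rw [if_neg (Nat.not_lt.2 h), if_neg (Nat.not_lt.2 h)]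
  · -- trap
    intro v hv hov w hw
    rw [pw2_len] at hv
    rcases Nat.lt_or_ge v g.length with h | h
    · rw [if_pos h] at hov ⊢
      rw [pw2_own0 M g v h] at hov
      rcases (pw2_suc0 M g v h w).1 hw with h1 | ⟨h1, h2, h3⟩ | ⟨h1, h2, h3⟩
      · rw [if_pos ((hV v h).2 w h1)]
        exact hS.trap v h hov w h1
      · rw [if_neg (by omega), decide_eq_false (by omega)]
        rw [h1] at hov
        cases hW : W v
        · rfl
        · exact absurd hW.symm hov
      · rw [if_neg (by omega), decide_eq_true (by omega)]
        rw [h1] at hov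
        cases hW : W v
        · exact absurd hW.symm hov
        · rfl
    · rw [if_neg (Nat.not_lt.2 h)] at hov ⊢
      exfalso
      apply hov
      rcases Nat.lt_or_ge v (g.length + M) with h' | h'
      · rw [decide_eq_true h']
        unfold own
        rw [pw2_vx1 M g v h h']
      · rw [decide_eq_false (Nat.not_lt.2 h')]
        unfold own
        rw [pw2_vx2 M g v h' hv]
  · -- won
    intro v hv x hx hf
    rw [pw2_len] at hv
    rcases Nat.lt_or_ge v g.length with h | h
    · rw [if_pos h] at hf ⊢
      -- one step inside `g`
      have hstep : ∀ n, x n < g.length → x (n + 1) < g.length → x (n + 1) ∈ suc g (x n) := by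
        intro n h1 h2
        rcases (pw2_suc0 M g (x n) h1 _).1 (hx.2 n) with h3 | h3 | h3
        · exact h3
        · omega
        · omega
      have hW : ∀ n, (∀ j ≤ n, x j < g.length) → W (x n) = W v := by
        intro n
        induction n with
        | zero => intro _; rw [hx.1]
        | succ n ih =>
          intro hj
          have ih' := ih (fun j hjn => hj j (by omega))
          have hn := hj n (by omega)
          have hn1 := hj (n + 1) le_rfl
          by_cases ho : own g (x n) = W v
          · have e1 := hf n (by rw [pw2_own0 M g _ hn]; exact ho)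
            rw [if_pos hn] at e1
            rw [e1, hS.stay (x n) hn (by rw [ho, ih']), ih']
          · rw [hS.trap (x n) hn (by rw [ih']; exact ho) _ (hstep n hn hn1), ih']
      by_cases hall : ∀ n, x n < g.length
      · have hplay : Play g v x := ⟨hx.1, fun n => hstep n (hall n) (hall (n + 1))⟩
        obtain ⟨p, hp1, hp2, hp3⟩ := hS.won v h x hplay (by
          intro n hn
          have e1 := hf n (by rw [pw2_own0 M g _ (hall n)]; exact hn)
          rwa [if_pos (hall n)] at e1)
        refine ⟨p, ?_, ?_, hp3⟩
        · refine hp1.mono ?_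
          intro n hn
          rw [pw2_pri0 M g _ (hall n)]
          exact hn
        · refine hp2.mono ?_
          intro n hn
          rw [pw2_pri0 M g _ (hall n)]
          exact hn
      · push Not at hall
        obtain ⟨q, hspec, hmin⟩ : ∃ q, g.length ≤ x q ∧ ∀ m < q, ¬ g.length ≤ x m :=
          ⟨Nat.find hall, Nat.find_spec hall, fun m hm => Nat.find_min hall hm⟩
        rcases Nat.eq_zero_or_eq_succ_pred q with h0 | h0
        · rw [h0, hx.1] at hspec
          omega
        · generalize hk : q.pred = k at h0
          subst h0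
          have hlt : ∀ j ≤ k, x j < g.length := fun j hj => Nat.not_le.1 (hmin j (by omega))
          have hxk := hlt k le_rfl
          have hWk := hW k hlt
          have ho : own g (x k) ≠ W v := by
            intro ho
            have e1 := hf k (by rw [pw2_own0 M g _ hxk]; exact ho)
            rw [if_pos hxk] at e1
            have e2 := hσ _ hxk
            have hspec' : g.length ≤ x (k + 1) := hspec
            omega
          rcases (pw2_suc0 M g (x k) hxk _).1 (hx.2 k) with h3 | ⟨h3, h4, h5⟩ | ⟨h3, h4, h5⟩
          · have e2 := (hV _ hxk).2 _ h3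
            have hspec' : g.length ≤ x (k + 1) := hspec
            omega
          · rw [h3] at ho
            have e1 : W v = false := by
              cases hWv : W v
              · rfl
              · exact absurd hWv.symm ho
            rw [e1]
            exact pw2_won2 M g v x hx (k + 1) h4 h5
          · rw [h3] at ho
            have e1 : W v = true := by
              cases hWv : W v
              · exact absurd hWv.symm ho
              · rfl
            rw [e1]
            exact pw2_won1 M g v x hx (k + 1) h4 h5
    · rw [if_neg (Nat.not_lt.2 h)]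
      rcases Nat.lt_or_ge v (g.length + M) with h' | h'
      · rw [decide_eq_true h']
        exact pw2_won1 M g v x hx 0 (by rw [hx.1]; exact h) (by rw [hx.1]; exact h')
      · rw [decide_eq_false (Nat.not_lt.2 h')]
        exact pw2_won2 M g v x hx 0 (by rw [hx.1]; exact h') (by rw [hx.1]; exact hv)

theorem pw2_thm : PW2Stmt := by
  intro M g _ hV
  have hV' := pw2_valid M g hV
  refine ⟨hV', ?_⟩
  obtain ⟨W, σ, hS⟩ := det_all g hV
  intro v hv i
  rw [win_row g W σ hV hS v hv i,
    win_row (padM M g) _ _ hV' (pw2_sol M g hV W σ hS) v (by rw [pw2_len]; omega) i, if_pos hv]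

end Pool.BHG
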