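import Pool.Agent.H5.BHG.PadDefs

/-!
# The bound `n / 2` for the outdegrees is sharp (after `H53/BHG/PDP.lean` and `H78/BHG/THR.lean`)
-/

set_option autoImplicit false

namespace Pool.BHG

open Filter TMLib Pool.PG

theorem th2_len : PTime (fun g : Game => g.length) := PTime.length PTime.id

theorem th2_pow (k : ℕ) : PTime (fun g : Game => g.length ^ k) := by
  induction k with
  | zero => simpa using PTime.const (α := Game) 1
  | succ k ih => simpa only [pow_succ] using PTime.mul ih th2_len

theorem th2_old (f : Game → ℕ) (hf : PTime f) : PTime (fun g : Game => g.map fun e =>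
    (e.1, e.2 ++ (List.range (f g)).map fun x =>
      x + (if e.1.1 = true then g.length + f g else g.length))) := by
  refine PTime.map (l := fun g : Game => g) (g := fun (g : Game) (e : Vx) =>
    (e.1, e.2 ++ (List.range (f g)).map fun x =>
      x + (if e.1.1 = true then g.length + f g else g.length))) PTime.id ?_
  have hg : PTime (fun q : Game × Vx => q.1.length) := th2_len.comp (PTime.fst PTime.id)
  have hc : PTime (fun q : Game × Vx => f q.1) := hf.comp (PTime.fst PTime.id)
  have hr : PTime (fun q : Game × Vx => List.range (f q.1)) := PTime.range hc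
  have hif : PTime (fun q : Game × Vx =>
      (bif q.2.1.1 then q.1.length + f q.1 else q.1.length)) :=
    PTime.cond (PTime.fst (PTime.fst (PTime.snd PTime.id))) (PTime.add hg hc) hg
  have hm : PTime (fun q : Game × Vx => (List.range (f q.1)).map fun x =>
      x + (bif q.2.1.1 then q.1.length + f q.1 else q.1.length)) :=
    PTime.map (l := fun q : Game × Vx => List.range (f q.1))
      (g := fun (q : Game × Vx) (x : ℕ) =>
        x + (bif q.2.1.1 then q.1.length + f q.1 else q.1.length)) hr
      (PTime.add (PTime.snd PTime.id) (hif.comp (PTime.fst PTime.id)))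
  refine (PTime.pair (PTime.fst (PTime.snd PTime.id))
    (PTime.append (PTime.snd (PTime.snd PTime.id)) hm)).congr fun q => ?_
  obtain ⟨g, ⟨⟨b, n⟩, l⟩⟩ := q
  cases b <;> rfl

theorem th2_new (f : Game → ℕ) (hf : PTime f) (e : Bool × ℕ) (f' : Game → ℕ) (hf' : PTime f') :
    PTime (fun g : Game => (List.range (f g)).map fun _ =>
      ((e, (List.range (f g)).map fun x => x + f' g) : Vx)) := by
  have hm : PTime (fun g : Game => (List.range (f g)).map fun x => x + f' g) :=
    PTime.map (l := fun g : Game => List.range (f g))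
      (g := fun (g : Game) (x : ℕ) => x + f' g) (PTime.range hf)
      (PTime.add (PTime.snd PTime.id) (hf'.comp (PTime.fst PTime.id)))
  exact PTime.map (l := fun g : Game => List.range (f g))
    (g := fun (g : Game) (_ : ℕ) =>
      ((e, (List.range (f g)).map fun x => x + f' g) : Vx)) (PTime.range hf)
    (PTime.pair (PTime.const e) (hm.comp (PTime.fst PTime.id)))

theorem th2_pad (f : Game → ℕ) (hf : PTime f) : PTime (fun g => padM (f g) g) := by
  refine (PTime.append (PTime.append (th2_old f hf)
    (th2_new f hf (true, 0) (fun g => g.length) th2_len))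
    (th2_new f hf (false, 1) (fun g => g.length + f g)
      (PTime.add th2_len hf))).congr fun g => ?_
  rfl

theorem th2_thm (hPD : PD2Stmt) (hPW : PW2Stmt) : TH2Stmt := by
  intro ε hε
  constructor
  · rintro ⟨B, hB, h⟩
    exact ⟨B, hB, fun g v hg hv _ => h g v hg hv⟩
  · rintro ⟨B, hB, h⟩
    obtain ⟨k, hk⟩ := exists_nat_ge (1 / ε)
    have hk1 : 1 ≤ (k : ℝ) * ε := by
      rw [div_le_iff₀ hε] at hk
      exact hk
    have hP : PTime (fun p : Game × ℕ => B (padM (p.1.length ^ k) p.1, p.2)) :=
      (bin_all.2.1 B hB).comp (PTime.pair ((th2_pad _ (th2_pow k)).comp (PTime.fst PTime.id))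
        (PTime.snd PTime.id))
    refine ⟨_, bot_all.2 Bool _ hP, fun g v hg hv => ?_⟩
    obtain ⟨hv1, hw1⟩ := cmw g hg
    have hlen : (Pool.PG.cmp g).length = g.length := by simp [Pool.PG.cmp]
    have hN : 1 ≤ g.length := by omega
    obtain ⟨hv2, hw2⟩ := hPW ((Pool.PG.cmp g).length ^ k) (Pool.PG.cmp g)
      (Nat.one_le_pow _ _ (by omega)) hv1
    obtain ⟨hl, hd⟩ := hPD ((Pool.PG.cmp g).length ^ k) (Pool.PG.cmp g)
    have e : min v g.length = v := min_eq_left hv.le
    change B (padM ((Pool.PG.cmp g).length ^ k) (Pool.PG.cmp g), min v g.length) = true ↔ _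
    have hvl : v < (padM ((Pool.PG.cmp g).length ^ k) (Pool.PG.cmp g)).length := by
      rw [hl, hlen]
      omega
    rw [e, h _ v hv2 hvl ?_]
    · rw [hw2 v (by rw [hlen]; exact hv) true]
      exact hw1 v hv true
    · intro u hu
      have h7 := hd u hu
      have h8 : (((Pool.PG.cmp g).length ^ k : ℕ) : ℝ) ≤
          ((suc (padM ((Pool.PG.cmp g).length ^ k) (Pool.PG.cmp g)) u).toFinset.card : ℝ) := by
        exact_mod_cast h7
      refine le_trans ?_ h8
      rw [hl, hlen]
      set N := g.length with hNd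
      have hN1 : (1 : ℝ) ≤ N := by exact_mod_cast hN
      have hn : ((N : ℝ) ^ k) ≤ ((N + 2 * N ^ k : ℕ) : ℝ) := by
        push_cast
        have : (0 : ℝ) ≤ (N : ℝ) ^ k := by positivity
        linarith
      have h9 : (N : ℝ) ≤ (((N + 2 * N ^ k : ℕ) : ℝ)) ^ ε := by
        calc (N : ℝ) = (N : ℝ) ^ (1 : ℝ) := (Real.rpow_one _).symm
          _ ≤ (N : ℝ) ^ ((k : ℝ) * ε) := Real.rpow_le_rpow_of_exponent_le hN1 hk1
          _ = ((N : ℝ) ^ k) ^ ε := by
              rw [Real.rpow_mul (by linarith), Real.rpow_natCast]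
          _ ≤ (((N + 2 * N ^ k : ℕ) : ℝ)) ^ ε :=
              Real.rpow_le_rpow (by positivity) hn hε.le
      have h10 : (((N + 2 * N ^ k : ℕ) : ℝ)) / 2 - N ≤ ((N ^ k : ℕ) : ℝ) := by
        push_cast
        linarith
      linarith

end Pool.BHG
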