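import Pool.Agent.H5.BHG.Defs
import Pool.Agent.H5.BHG.TH2

/-!
# The bound `n / 2` for the outdegrees is sharp: lists of winners
-/

set_option autoImplicit false

namespace Pool.BHG

open Filter TMLib Pool.PG

/-- The sharp bound, for the lists of the winners. -/
def TH3Stmt : Prop :=
  ∀ ε : ℝ, 0 < ε →
    (∃ A : Game → List Bool, N68a2faeb.IsPolyTime A ∧ ∀ g : Game, Valid g →
      (∀ v < g.length, (g.length : ℝ) / 2 - (g.length : ℝ) ^ ε ≤ ((suc g v).toFinset.card : ℝ)) →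
      Solves A g) →
    ∃ A : Game → List Bool, N68a2faeb.IsPolyTime A ∧ ∀ g : Game, Valid g → Solves A g

theorem th3_thm (hPD : PD2Stmt) (hPW : PW2Stmt) : TH3Stmt := by
  intro ε hε
  rintro ⟨A, hA, h⟩
  obtain ⟨k, hk⟩ := exists_nat_ge (1 / ε)
  have hk1 : 1 ≤ (k : ℝ) * ε := by
    rw [div_le_iff₀ hε] at hk
    exact hk
  have hP : PTime (fun g : Game => (A (padM (g.length ^ k) g)).take g.length) :=
    PTime.take th2_len ((bin_all.1 A hA).comp (th2_pad _ (th2_pow k)))
  refine ⟨_, bot_all.1 (List Bool) _ hP, fun g hg => ?_⟩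
  rcases Nat.eq_zero_or_pos g.length with h0 | hN
  · have hg0 : g = [] := List.length_eq_zero_iff.1 h0
    subst hg0
    exact ⟨by simp [Pool.PG.cmp], fun v hv => absurd hv (Nat.not_lt_zero v)⟩
  obtain ⟨hv1, hw1⟩ := cmw g hg
  have hlen : (Pool.PG.cmp g).length = g.length := by simp [Pool.PG.cmp]
  obtain ⟨hv2, hw2⟩ := hPW ((Pool.PG.cmp g).length ^ k) (Pool.PG.cmp g)
    (Nat.one_le_pow _ _ (by omega)) hv1
  obtain ⟨hl, hd⟩ := hPD ((Pool.PG.cmp g).length ^ k) (Pool.PG.cmp g)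
  obtain ⟨hAl, hAw⟩ := h (padM ((Pool.PG.cmp g).length ^ k) (Pool.PG.cmp g)) hv2 (by
    intro u hu
    have h7 := hd u hu
    have h8 : (((Pool.PG.cmp g).length ^ k : ℕ) : ℝ) ≤
        ((suc (padM ((Pool.PG.cmp g).length ^ k) (Pool.PG.cmp g)) u).toFinset.card : ℝ) := by
      exact_mod_cast h7
    refine le_trans ?_ h8
    rw [hl, hlen]
    set N := g.length with hNd
    have hN1 : (1 : ℝ) ≤ N := by exact_mod_cast hN
    have hn : ((N : ℝ) ^ k) ≤ ((N + 2 * N ^ k : ℕ) : ℝ) := by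
      push_cast
      have : (0 : ℝ) ≤ (N : ℝ) ^ k := by positivity
      linarith
    have h9 : (N : ℝ) ≤ (((N + 2 * N ^ k : ℕ) : ℝ)) ^ ε := by
      calc (N : ℝ) = (N : ℝ) ^ (1 : ℝ) := (Real.rpow_one _).symm
        _ ≤ (N : ℝ) ^ ((k : ℝ) * ε) := Real.rpow_le_rpow_of_exponent_le hN1 hk1
        _ = ((N : ℝ) ^ k) ^ ε := by
            rw [Real.rpow_mul (by linarith), Real.rpow_natCast]
        _ ≤ (((N + 2 * N ^ k : ℕ) : ℝ)) ^ ε :=
            Real.rpow_le_rpow (by positivity) hn hε.le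
    have h10 : (((N + 2 * N ^ k : ℕ) : ℝ)) / 2 - N ≤ ((N ^ k : ℕ) : ℝ) := by
      push_cast
      linarith
    linarith)
  have hle : g.length ≤ (A (padM ((Pool.PG.cmp g).length ^ k) (Pool.PG.cmp g))).length := by
    rw [hAl, hl, hlen]
    omega
  refine ⟨?_, fun v hv => ?_⟩
  · change ((A (padM ((Pool.PG.cmp g).length ^ k) (Pool.PG.cmp g))).take
      (Pool.PG.cmp g).length).length = g.length
    rw [List.length_take, hlen]
    rw [hlen] at hle
    exact min_eq_left hle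
  · change Win g (((A (padM ((Pool.PG.cmp g).length ^ k) (Pool.PG.cmp g))).take
      (Pool.PG.cmp g).length).getD v false) v
    have e : ((A (padM ((Pool.PG.cmp g).length ^ k) (Pool.PG.cmp g))).take
        (Pool.PG.cmp g).length).getD v false =
        (A (padM ((Pool.PG.cmp g).length ^ k) (Pool.PG.cmp g))).getD v false := by
      rw [List.getD_eq_getElem?_getD, List.getD_eq_getElem?_getD, List.getElem?_take_of_lt]
      rw [hlen]
      exact hv
    rw [e]
    have hvc : v < (Pool.PG.cmp g).length := by rw [hlen]; exact hv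
    refine (hw1 v hv _).1 ((hw2 v hvc _).1 (hAw v ?_))
    rw [hl, hlen]
    omega

end Pool.BHG
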