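import Pool.Agent.H5.BHG.Defs
import Pool.Agent.H5.BHG.All
import Pool.Agent.H5.BHG.TH3
import Pool.Agent.H5.DPG.Final
import Pool.Agent.H5.BHG.PD2
import Pool.Agent.H5.BHG.PW2

/-!
# Parity games with common successors: the theorem
-/

set_option autoImplicit false

namespace Pool.BHG

open Pool.PG Pool.DPG

open Classical in
theorem final_all :
    (∀ t : ℕ, 1 ≤ t → ∃ A : Game → List Bool, N68a2faeb.IsPolyTime A ∧
      (∀ g : Game, Valid g → A g ≠ [] → Solves A g) ∧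
      (∀ g : Game, Valid g → Meet t g → Solves A g) ∧
      (∀ g : Game, Valid g → (∀ v < g.length, g.length < 2 * (suc g v).toFinset.card) →
        Solves A g) ∧
      ∀ (n : ℕ) (p : ℝ), 2 ≤ n → 0 ≤ p → p ≤ 1 →
        ∑ E ∈ Finset.univ.filter (fun E : Fin n → Fin n → Bool =>
          ∃ (o : Fin n → Bool) (q : Fin n → ℕ), A (graphGame o q E) = []), prob p E ≤
          (n : ℝ) ^ 2 * (1 - p ^ 2) ^ n) ∧
    ∀ ε : ℝ, 0 < ε →
      (∃ A : Game → List Bool, N68a2faeb.IsPolyTime A ∧ ∀ g : Game, Valid g →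
        (∀ v < g.length, (g.length : ℝ) / 2 - (g.length : ℝ) ^ ε ≤ ((suc g v).toFinset.card : ℝ)) →
        Solves A g) →
      ∃ A : Game → List Bool, N68a2faeb.IsPolyTime A ∧ ∀ g : Game, Valid g → Solves A g := by
  refine ⟨fun t ht => ?_, th3_thm pd2_thm pw2_thm⟩
  obtain ⟨A, h1, h2, h3, h4⟩ := fnh_all t ht
  refine ⟨A, h1, h2, fun g hg hM => h3 g hg hM, fun g hg hH => h3 g hg (hlf_thm t g ht hg hH),
    fun n p hn hp0 hp1 => ?_⟩
  have h := h4 n p hn hp0 hp1
  simp only [graphGame_eq]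
  exact h

end Pool.BHG
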