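import Pool.Agent.H5.BHG.Stmts5

/-! # Second extension of the board `bhg`, row HL3 for the sum of two outdegrees -/

set_option autoImplicit false

namespace Pool.BHG

open Pool.PG Pool.DPG

theorem hl45_exp (x : ℝ) (k : ℕ) (hx : 0 < x) : x ^ k = Real.exp ((k : ℝ) * Real.log x) := by
  rw [← Real.rpow_natCast, Real.rpow_def_of_pos hx]
  congr 1
  ring

theorem hl45_thm (C : ℝ) : ∃ c : ℕ, ∀ g : Game, Valid g →
    (∀ v < g.length, ∀ w < g.length, own g v = true → own g w = false →
      (g.length : ℝ) - C * Real.log g.length ≤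
        ((suc g v).toFinset.card : ℝ) + ((suc g w).toFinset.card : ℝ)) → Lx c g := by
  refine ⟨⌈|C|⌉₊ + 1, ?_⟩
  intro g hg h v hv w hw hown hmt
  have hsub : ∀ x < g.length, (suc g x).toFinset ⊆ Finset.range g.length := fun x hx y hy =>
    Finset.mem_range.2 ((hg x hx).2 y (List.mem_toFinset.1 hy))
  set F := (Finset.range g.length).filter fun u => u ∉ suc g v ∧ u ∉ suc g w with hF
  have h1 : Disjoint (suc g v).toFinset (suc g w).toFinset := by
    rw [Finset.disjoint_left]
    intro u hu hu'
    exact hmt (Or.inr (Or.inr ⟨u, List.mem_toFinset.1 hu, List.mem_toFinset.1 hu'⟩))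
  have h2 : Disjoint ((suc g v).toFinset ∪ (suc g w).toFinset) F := by
    rw [Finset.disjoint_left]
    intro u hu hu'
    rw [hF, Finset.mem_filter] at hu'
    rcases Finset.mem_union.1 hu with h3 | h3
    · exact hu'.2.1 (List.mem_toFinset.1 h3)
    · exact hu'.2.2 (List.mem_toFinset.1 h3)
  have h3 : (((suc g v).toFinset ∪ (suc g w).toFinset) ∪ F).card ≤ g.length := by
    calc _ ≤ (Finset.range g.length).card :=
          Finset.card_le_card (Finset.union_subset
            (Finset.union_subset (hsub v hv) (hsub w hw)) (Finset.filter_subset _ _))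
      _ = g.length := Finset.card_range _
  rw [Finset.card_union_of_disjoint h2, Finset.card_union_of_disjoint h1] at h3
  have h3' : ((suc g v).toFinset.card : ℝ) + ((suc g w).toFinset.card : ℝ) + (F.card : ℝ) ≤
      (g.length : ℝ) := by exact_mod_cast h3
  have h4 : (g.length : ℝ) - C * Real.log g.length ≤
      ((suc g v).toFinset.card : ℝ) + ((suc g w).toFinset.card : ℝ) := by
    cases h1 : own g v with
    | true => exact h v hv w hw h1 (by rw [h1] at hown; simpa using hown)
    | false =>
      rw [add_comm]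
      exact h w hw v hv (by rw [h1] at hown; simpa using hown) h1
  have hn : (1 : ℝ) ≤ (g.length : ℝ) := by exact_mod_cast (by omega : 1 ≤ g.length)
  have hlog : 0 ≤ Real.log (g.length : ℝ) := Real.log_nonneg hn
  have h6 : (F.card : ℝ) ≤ |C| * Real.log g.length := by
    have := mul_le_mul_of_nonneg_right (le_abs_self C) hlog
    linarith
  have h7 : |C| ≤ ((⌈|C|⌉₊ + 1 : ℕ) : ℝ) := by
    push_cast
    linarith [Nat.le_ceil |C|]
  have h8 : (2 : ℝ) ^ F.card ≤ ((g.length : ℝ) + 2) ^ (⌈|C|⌉₊ + 1) := by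
    rw [hl45_exp 2 _ (by norm_num), hl45_exp ((g.length : ℝ) + 2) _ (by linarith)]
    apply Real.exp_le_exp.2
    have l1 : Real.log 2 ≤ 1 := by
      have := Real.log_two_lt_d9
      linarith
    have l2 : Real.log (g.length : ℝ) ≤ Real.log ((g.length : ℝ) + 2) :=
      Real.log_le_log (by linarith) (by linarith)
    calc (F.card : ℝ) * Real.log 2 ≤ (F.card : ℝ) * 1 :=
          mul_le_mul_of_nonneg_left l1 (Nat.cast_nonneg _)
      _ = (F.card : ℝ) := mul_one _
      _ ≤ |C| * Real.log g.length := h6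
      _ ≤ ((⌈|C|⌉₊ + 1 : ℕ) : ℝ) * Real.log g.length :=
          mul_le_mul_of_nonneg_right h7 hlog
      _ ≤ _ := mul_le_mul_of_nonneg_left l2 (Nat.cast_nonneg _)
  exact_mod_cast h8

end Pool.BHG
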