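import Pool.Agent.H5.BHG.Stmts5

/-!
# Second extension of the board `bhg`, rows SB3, LG3
-/

set_option autoImplicit false

namespace Pool.BHG

open Pool.PG Pool.DPG

theorem sb35_thm : SB3Stmt := by
  obtain ⟨hF1, hF2, hF3, -⟩ := fsb_thm
  refine ⟨?_, ?_, ?_⟩
  · intro c g X hX hne
    unfold sb at hne ⊢
    split_ifs at hne ⊢ with h
    · exact brs_all c g X hX hne
    · exact onsS_all.1 g X hX h
  · intro c g X q hg hl hq
    have h : one g X ≠ [] := onsS_all.2 g X q hg hl hq
    unfold sb
    rw [if_neg h]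
    exact h
  · intro c g X hg hX hc
    unfold sb
    split_ifs with h
    · exact brc_all c g X hg hX (by rw [(hF3 g X hX.1).1]; exact hc)
    · exact h

theorem lg35_thm (hSB3 : SB3Stmt) : LG3Stmt := by
  obtain ⟨hF1, hF2, hF3, -⟩ := fsb_thm
  obtain ⟨hS1, hS2, hS3⟩ := hSB3
  intro c g Y i hg hYs hM
  have hrange : ∀ X : List Bool, fs g X ⊆ Finset.range g.length := fun X =>
    Finset.filter_subset _ _
  have hsmall : ∀ (Z : List Bool) (w : ℕ), Sub g Z → w ∈ fs g Y → own g w = i →
      (∀ u ∈ fs g Z, u ∈ fs g Y ∧ u ∉ suc g w) → sb c g Z ≠ [] := by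
    intro Z w hZ hw hwi hu
    refine hS3 c g Z hg hZ (le_trans (Nat.pow_le_pow_right (by norm_num)
      (Finset.card_le_card ?_)) (hM w hw hwi))
    intro u h
    rw [Finset.mem_filter]
    exact hu u h
  refine lvg_all (sb c) c3 (sb c) g (fun F => F ⊆ fs g Y) hg (hS1 c g) (hS1 c g)
    (fun F F' h1 h2 => h1.trans h2) ?_ (g.length + 1) Y hYs (Finset.Subset.refl _) ?_
  · intro X B' j hX hXY hfd hS hB hne hdm hcl
    by_cases hji : j = i
    · subst hji
      refine hS2 c g (dif g X B') (!j) hg hS.1 ?_
      intro w hw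
      rw [hF2, Finset.mem_sdiff] at hw
      obtain ⟨hwX, hwB⟩ := hw
      by_contra hwj'
      have hwj : own g w = j := by
        cases h1 : own g w <;> cases h2 : j <;> simp_all
      have hwn : w < g.length := Finset.mem_range.1 (hrange X hwX)
      let T : List Bool := msk g.length fun u => !decide (u = w) && !decide (u ∈ suc g w)
      have hTm : (j, T) ∈ c3 g := by
        unfold c3 c4
        rw [List.mem_append, List.mem_map]
        exact Or.inr ⟨w, List.mem_range.2 hwn, by rw [hwj]⟩
      have hTf : ∀ u, u ∈ fs g T ↔ u < g.length ∧ u ≠ w ∧ u ∉ suc g w := by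
        intro u
        show u ∈ fs g (msk g.length fun u => !decide (u = w) && !decide (u ∈ suc g w)) ↔ _
        rw [(hF1 g _).2, Finset.mem_filter, Finset.mem_range]
        simp
      have hBT : fs g B' ⊆ fs g T := by
        intro b hb
        rw [hTf]
        refine ⟨Finset.mem_range.1 (hrange B' hb), fun h => hwB (h ▸ hb), fun h => ?_⟩
        exact hcl w hwX hwB hwj b (hB hb) h hb
      obtain ⟨y1, y2, y3, -⟩ := ysb_thm g X (j, T) hX
      refine cdc_all (sb c) c3 g X (j, T) (fs g B') (hS1 c g) hX hTm ?_ hne hdm hBT hfd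
      exact hsmall _ w y1 (hXY hwX) hwj fun u hu =>
        ⟨hXY (y2 hu), ((hTf u).1 (y3 hu)).2.2⟩
    · by_cases hno : ∃ w ∈ fs g B', own g w = i
      · obtain ⟨w, hw, hwi⟩ := hno
        refine hsmall _ w hS (hXY (hB hw)) hwi fun u hu => ?_
        rw [hF2, Finset.mem_sdiff] at hu
        exact ⟨hXY hu.1, fun h => hu.2 (hdm.2.1 w hw (by rw [hwi]; exact fun h' => hji h'.symm)
          u hu.1 h)⟩
      · exfalso
        push Not at hno
        have hBo : ∀ b ∈ fs g B', own g b = j := by
          intro b hb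
          have h1 := hno b hb
          cases h2 : own g b <;> cases h3 : j <;> cases h4 : i <;> simp_all
        have hvm : ∀ u, u ∈ fs g (vm g j) ↔ u < g.length ∧ own g u = j := by
          intro u
          unfold vm
          rw [(hF1 g _).2, Finset.mem_filter, Finset.mem_range]
          simp
        have hTm : (j, vm g j) ∈ c3 g := by
          unfold c3 c0
          rw [List.mem_append]
          left
          cases j <;> simp
        obtain ⟨y1, -, y3, -⟩ := ysb_thm g X (j, vm g j) hX
        refine cdc_all (sb c) c3 g X (j, vm g j) (fs g B') (hS1 c g) hX hTm ?_ hne hdm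
          (fun b hb => (hvm b).2 ⟨Finset.mem_range.1 (hrange B' hb), hBo b hb⟩) hfd
        exact hS2 c g _ j hg y1.1 fun u hu => ((hvm u).1 (y3 hu)).2
  · rw [(hF3 g _ hYs.1).1]
    exact Nat.lt_succ_of_le ((Finset.card_le_card (hrange Y)).trans (by rw [Finset.card_range]))

end Pool.BHG
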