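import Pool.Agent.H59.PG.AllC

/-!
# The bound `n / 2` for the outdegrees is sharp: the padded game
-/

set_option autoImplicit false

namespace Pool.BHG

open Filter TMLib Pool.PG

/-- `N = g.length`.  New vertices: `M` vertices of `◇` of priority `0`, numbered from `N`, and `M`
vertices of `□` of priority `1`, numbered from `N + M`; all arcs inside each of these two sets; and all
arcs from the vertices of `◇` of `g` to the second set and from the vertices of `□` of `g` to the first
set. -/
def padM (M : ℕ) (g : Game) : Game :=
  ((g.map fun e => (e.1, e.2 ++ (List.range M).map fun x =>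
      x + (if e.1.1 = true then g.length + M else g.length))) ++
    (List.range M).map fun _ => ((true, 0), (List.range M).map fun x => x + g.length)) ++
    (List.range M).map fun _ => ((false, 1), (List.range M).map fun x => x + (g.length + M))

/-- Lengths and outdegrees. -/
def PD2Stmt : Prop :=
  ∀ (M : ℕ) (g : Game), (padM M g).length = g.length + 2 * M ∧
    ∀ v < (padM M g).length, M ≤ (suc (padM M g) v).toFinset.card

/-- The winners do not change. -/
def PW2Stmt : Prop :=
  ∀ (M : ℕ) (g : Game), 1 ≤ M → Valid g → Valid (padM M g) ∧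
    ∀ v < g.length, ∀ i : Bool, Win (padM M g) i v ↔ Win g i v

/-- The sharp bound. -/
def TH2Stmt : Prop :=
  ∀ ε : ℝ, 0 < ε →
    ((∃ B : Game × ℕ → Bool, N68a2faeb.IsPolyTime B ∧
      ∀ (g : Game) (v : ℕ), Valid g → v < g.length → (B (g, v) = true ↔ Win g true v)) ↔
    ∃ B : Game × ℕ → Bool, N68a2faeb.IsPolyTime B ∧
      ∀ (g : Game) (v : ℕ), Valid g → v < g.length →
        (∀ u < g.length, (g.length : ℝ) / 2 - (g.length : ℝ) ^ ε ≤ ((suc g u).toFinset.card : ℝ)) →
        (B (g, v) = true ↔ Win g true v))

end Pool.BHG
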