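import Pool.Agent.H5.BHG.Stmts4

/-!
# Extension of the board `bhg`, row SD2: completeness of the algorithm on subgames
-/

set_option autoImplicit false

namespace Pool.BHG

open Pool.PG Pool.DPG

theorem sd25_thm : SD2Stmt := by
  obtain ⟨hF1, hF2, hF3, -⟩ := fsb_thm
  intro t g Y hg hYs hYc hM
  have hrange : ∀ X : List Bool, fs g X ⊆ Finset.range g.length := fun X =>
    Finset.filter_subset _ _
  refine lvh_all (lvs t) (ct t) (lvs t) g (fun F => Com g F ∧ F ⊆ fs g Y) hg (lsn_all t g)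
    (lsn_all t g) ?_ ?_ (g.length + 1) Y hYs ⟨hYc, Finset.Subset.refl _⟩ ?_
  · rintro i X T hX ⟨hc, hs⟩
    refine ⟨cma_thm g i X T hX hc, ?_⟩
    rw [hF2]
    exact Finset.sdiff_subset.trans hs
  · rintro X B' j hX ⟨hP, hXY⟩ hfd hS hB hne hdm hcl
    refine lsc_all t g (dif g X B') j hg hS ?_
    by_contra hcon
    push Not at hcon
    have h2 : fo g (dif g X B') j = fo g X j \ fs g B' := by
      unfold fo
      rw [hF2]
      ext v
      simp only [Finset.mem_filter, Finset.mem_sdiff]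
      tauto
    rw [h2] at hcon
    have h3 : t < ((fs g B').filter fun v => own g v ≠ j).card := by
      by_contra hc
      push Not at hc
      obtain ⟨hC1, hC2⟩ := ctm_thm t g hg
      obtain ⟨T, hT, hBT⟩ := hC1 j (fs g B') (hrange B') hc
      refine cdc_all (lvs t) (ct t) g X (j, T) (fs g B') (lsn_all t g) hX hT ?_ hne hdm hBT hfd
      obtain ⟨y1, -, y3, -⟩ := ysb_thm g X (j, T) hX
      refine lsc_all t g (yy g X (j, T)) (!j) hg y1 ?_
      refine le_trans (Finset.card_le_card ?_) (hC2 (j, T) hT)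
      intro v hv
      unfold fo at hv
      rw [Finset.mem_filter] at hv ⊢
      refine ⟨y3 hv.1, ?_⟩
      rw [hv.2]
      cases j <;> simp
    obtain ⟨D, hD, hDc⟩ := Finset.exists_subset_card_eq h3.le
    obtain ⟨E, hE, hEc⟩ := Finset.exists_subset_card_eq hcon.le
    have hD' : ∀ v ∈ D, v ∈ fs g B' ∧ own g v ≠ j := fun v hv => by
      have := hD hv
      rw [Finset.mem_filter] at this
      exact this
    have hE' : ∀ v ∈ E, v ∈ fs g X ∧ own g v = j ∧ v ∉ fs g B' := fun v hv => by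
      have := hE hv
      rw [Finset.mem_sdiff] at this
      unfold fo at this
      rw [Finset.mem_filter] at this
      exact ⟨this.1.1, this.1.2, this.2⟩
    have key : ∀ d ∈ D, ∀ e ∈ E, ¬ (d ∈ suc g e) ∧ ¬ (e ∈ suc g d) ∧
        ¬ ∃ u, u ∈ suc g d ∧ u ∈ suc g e := by
      intro d hd e he
      obtain ⟨d1, d2⟩ := hD' d hd
      obtain ⟨e1, e2, e3⟩ := hE' e he
      refine ⟨fun h => hcl e e1 e3 e2 d (hB d1) h d1, fun h => e3 (hdm.2.1 d d1 d2 e e1 h), ?_⟩
      rintro ⟨u, hu1, hu2⟩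
      have huX : u ∈ fs g X := hP d (hB d1) e e1 (by rw [e2]; exact d2) u hu1 hu2
      exact hcl e e1 e3 e2 u huX hu2 (hdm.2.1 d d1 d2 u huX hu1)
    cases j with
    | true =>
      obtain ⟨v, hv, w, hw, h⟩ := hM E D (fun v hv => ⟨hXY (hE' v hv).1, (hE' v hv).2.1⟩)
        (fun w hw => ⟨hXY (hB (hD' w hw).1), by
          have := (hD' w hw).2
          simpa using this⟩) hEc hDc
      rcases h with h | h | ⟨u, hu1, hu2⟩
      · exact (key w hw v hv).1 h
      · exact (key w hw v hv).2.1 h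
      · exact (key w hw v hv).2.2 ⟨u, hu2, hu1⟩
    | false =>
      obtain ⟨v, hv, w, hw, h⟩ := hM D E (fun v hv => ⟨hXY (hB (hD' v hv).1), by
          have := (hD' v hv).2
          simpa using this⟩)
        (fun w hw => ⟨hXY (hE' w hw).1, (hE' w hw).2.1⟩) hDc hEc
      rcases h with h | h | ⟨u, hu1, hu2⟩
      · exact (key v hv w hw).2.1 h
      · exact (key v hv w hw).1 h
      · exact (key v hv w hw).2.2 ⟨u, hu1, hu2⟩
  · rw [(hF3 g _ hYs.1).1]
    exact Nat.lt_succ_of_le ((Finset.card_le_card (hrange Y)).trans (by rw [Finset.card_range]))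

end Pool.BHG
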