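import Pool.Agent.H5.DPG.All

/-!
# Parity games without large holes between the players: the algorithm and the rows of the board `bhg`

THEOREM.  For every `t` there is a polynomial time algorithm, never wrong, which solves all parity
games in which there is an arc (in at least one direction) between any `t` vertices of the player `◇`
and any `t` vertices of the player `□`.

Idea.  A region `B` of `X` won by `j` and closed under the attractor of `j`: its vertices owned by `!j`
have no successors in `X \ B`, and the vertices of `X \ B` owned by `j` have no successors in `B`.  So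
`B` has less than `t` vertices of `!j` or `X \ B` has less than `t` vertices of `j`.  Zielonka's
algorithm: before each step, the winning regions of `j` with at most `t` vertices of `!j` are found
(`fd`, for all `n ^ t` possible sets of vertices of `!j`) and removed.  So the second call is for a
game in which `j` has at most `t` vertices.  Such games are solved by `lvs t`: again Zielonka's
algorithm, in which before each step the winning regions all whose vertices are owned by the same
player are removed (`one`, `c0`); so in the second call both players have fewer vertices than before,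
and `lvs (s + 1)` uses `lvs s` for the second call.

The definitions `msk`, `dif`, `att`, `mp`, `tp`, `pl`, `nA`, `bad`, `jn`, `zs`, `IsAtr`, `Dmn`, `fs`,
`Sub`, `Lab`, `Snd`, `fo`, `Cls` and the rows of the board `dpg` are those of
`Pool/Agent/H5/DPG/Stmts.lean`; all rows of that board are PROVED and imported here: `dma_thm`,
`zrm_thm`, `ztp_thm`, `dmw_thm`, `atl_thm`, `fsb_thm`, `dsb_all`, `mpr_all`, `bdm_all`, `zss_all`,
`pma_all`, `pzs_all`, and from the board `pgm` `Pool.PG.det_all`, `Pool.PG.dta_row`, `Pool.PG.atr_row`,
`Pool.PG.win_row`, `Pool.PG.pv1_row`, `Pool.PG.bot_all`, `Pool.PG.cmw`.  USE THEM DIRECTLY, not as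
hypotheses.  Several rows are copies of rows of `dpg` (see the docstrings), with `fnd` replaced by `fd`.

Row `XXX` is a theorem `Pool.BHG.xxx_thm (h1 : AAAStmt) ... : XXXStmt` (needs in the order of the
table) in `Pool/Agent/H<k>/BHG/XXX.lean`.  Helper lemmas with names which begin with `xxx_`.  No
double quotes, no `convert` between different `DecidableEq` instances.
-/

set_option autoImplicit false

namespace Pool.BHG

open Filter TMLib Pool.PG Pool.DPG

/-! ## The algorithm -/

/-- The mask of the vertices of the player `q`. -/
def vm (g : Game) (q : Bool) : List Bool := msk g.length fun v => own g v == q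

/-- All lists of length `t` of numbers `< n`. -/
def tup (n : ℕ) : ℕ → List (List ℕ)
  | 0 => [[]]
  | t + 1 => (List.range n).flatMap fun a => (tup n t).map (List.cons a)

/-- The pairs `(j, vm g q)`. -/
def c0 (g : Game) : List (Bool × List Bool) :=
  [(true, vm g true), (true, vm g false), (false, vm g true), (false, vm g false)]

/-- The pairs `(j, T)`, where `T` has all vertices of `j` and at most `t` vertices of `!j`. -/
def ct (t : ℕ) (g : Game) : List (Bool × List Bool) :=
  (tup g.length t).flatMap fun b =>
    [(true, msk g.length fun v => own g v || decide (v ∈ b)),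
     (false, msk g.length fun v => !own g v || decide (v ∈ b))]

/-- The largest part of `q.2` in `X` which the player `!q.1` cannot leave. -/
def yy (g : Game) (X : List Bool) (q : Bool × List Bool) : List Bool :=
  dif g X (att (!q.1) g X (dif g X q.2))

/-- The vertices of this part won by `q.1` there, if `S` solves it. -/
def cd (S : Game → List Bool → List Bool) (g : Game) (X : List Bool) (q : Bool × List Bool) :
    List Bool :=
  if S g (yy g X q) = [] then [] else
  msk g.length fun v => (yy g X q).getD v false && ((S g (yy g X q)).getD v false == q.1)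

/-- The nonempty sets `cd`, with the player, for the pairs of the list `C g`. -/
def fd (S : Game → List Bool → List Bool) (C : Game → List (Bool × List Bool)) (g : Game)
    (X : List Bool) : List (Bool × List Bool) :=
  ((C g).map fun q => (q.1, cd S g X q)).filter fun q => q.2.any fun b => b

/-- The first of them. -/
def f1 (S : Game → List Bool → List Bool) (C : Game → List (Bool × List Bool)) (g : Game)
    (X : List Bool) : Bool × List Bool := (fd S C g X).headD (true, [])

/-- The set of the first recursive call. -/
def nx (S : Game → List Bool → List Bool) (C : Game → List (Bool × List Bool)) (g : Game)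
    (X : List Bool) : List Bool :=
  if fd S C g X = [] then dif g X (nA g X)
  else dif g X (att (f1 S C g X).1 g X (f1 S C g X).2)

/-- The labels of `X` from the labels `L` of `nx S C g X`; `R` is used for the second call. -/
def upp (S : Game → List Bool → List Bool) (C : Game → List (Bool × List Bool))
    (R : Game → List Bool → List Bool) (g : Game) (X L : List Bool) : List Bool :=
  if (X.any fun b => b) = false then msk g.length fun _ => true else
  if fd S C g X = [] then zs g (R g) X L
  else jn g (f1 S C g X).1 (att (f1 S C g X).1 g X (f1 S C g X).2) L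

/-- The recursion. -/
def rcg (S : Game → List Bool → List Bool) (C : Game → List (Bool × List Bool))
    (R : Game → List Bool → List Bool) (g : Game) : ℕ → List Bool → List Bool
  | 0, _ => []
  | t + 1, X => upp S C R g X (rcg S C R g t (nx S C g X))

/-- The solver. -/
def lvg (S : Game → List Bool → List Bool) (C : Game → List (Bool × List Bool))
    (R : Game → List Bool → List Bool) (g : Game) (X : List Bool) : List Bool :=
  rcg S C R g (g.length + 1) X

/-- The vertices of `X` with priority at least `p`. -/
def xp (g : Game) (X : List Bool) (p : ℕ) : List Bool :=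
  msk g.length fun v => X.getD v false && decide (p ≤ pri g v)

/-- `u` has a priority which `q` likes, and (if all vertices of `X` are owned by `q`) it is on a closed
walk in `X` on which no priority is smaller. -/
def gdc (q : Bool) (g : Game) (X : List Bool) (u : ℕ) : Bool :=
  (evb (pri g u) == q) && ((suc g u).any fun w =>
    (att q g (xp g X (pri g u)) (msk g.length fun v => decide (v = u))).getD w false)

/-- The vertices of `X` from which `q` can reach such a `u` in `X`. -/
def one1 (q : Bool) (g : Game) (X : List Bool) : List Bool :=
  att q g X (msk g.length fun u => X.getD u false && gdc q g X u)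

/-- Games in which all vertices are owned by the same player. -/
def one (g : Game) (X : List Bool) : List Bool :=
  if ((List.range g.length).all fun v => !X.getD v false || own g v) = true then
    msk g.length fun v => (one1 true g X).getD v false
  else if ((List.range g.length).all fun v => !X.getD v false || !own g v) = true then
    msk g.length fun v => !(one1 false g X).getD v false
  else []

/-- Games in which one of the players has at most `s` vertices. -/
def lvs : ℕ → Game → List Bool → List Bool
  | 0 => one
  | s + 1 => lvg one c0 (lvs s)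

/-- The algorithm. -/
def sol (t : ℕ) (g : Game) : List Bool :=
  lvg (lvs t) (ct t) (lvs t) g (msk g.length fun _ => true)

/-- There is an arc between any `t` vertices of `◇` and any `t` vertices of `□`. -/
def Mix (t : ℕ) (g : Game) : Prop :=
  ∀ D B : Finset ℕ, (∀ v ∈ D, v < g.length ∧ own g v = true) →
    (∀ w ∈ B, w < g.length ∧ own g w = false) → D.card = t → B.card = t →
    ∃ v ∈ D, ∃ w ∈ B, w ∈ suc g v ∨ v ∈ suc g w

/-! ## Correctness -/

/-- **YSB** (30). (`dsb_all` with `i = !q.1`, `T = dif g X q.2`, and `ATL`, `FSB`.) -/
def YSBStmt : Prop :=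
  ∀ (g : Game) (X : List Bool) (q : Bool × List Bool), Sub g X →
    Sub g (yy g X q) ∧ fs g (yy g X q) ⊆ fs g X ∧ fs g (yy g X q) ⊆ fs g q.2 ∧
    ∀ v ∈ fs g (yy g X q), own g v ≠ q.1 → ∀ w ∈ fs g X, w ∈ suc g v → w ∈ fs g (yy g X q)

/-- **BYY** (50). A region contained in `q.2` is a region of `yy`.  (Copy of `BYJ` of `dpg`, with
`q.2` in place of `Tj`.) -/
def BYYStmt : Prop :=
  ∀ (g : Game) (X : List Bool) (q : Bool × List Bool) (B : Finset ℕ), X.length = g.length →
    Dmn (own g) (pri g) (fun v w => w ∈ suc g v) (fs g X) q.1 B → B ⊆ fs g q.2 →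
    Dmn (own g) (pri g) (fun v w => w ∈ suc g v) (fs g (yy g X q)) q.1 B

/-- **CDC** (60, needs YSB, BYY). A region contained in a candidate which `S` can solve is found.
(`DMW`: the vertices of `B` have the label `q.1`, so `cd S g X q` is not empty.  As in the proof of
`SMD` of `dpg`.) -/
def CDCStmt : Prop :=
  ∀ (S : Game → List Bool → List Bool) (C : Game → List (Bool × List Bool)) (g : Game)
    (X : List Bool) (q : Bool × List Bool) (B : Finset ℕ), Snd g (S g) → Sub g X → q ∈ C g →
    S g (yy g X q) ≠ [] → B.Nonempty →
    Dmn (own g) (pri g) (fun v w => w ∈ suc g v) (fs g X) q.1 B → B ⊆ fs g q.2 → fd S C g X ≠ []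

/-- **FDG** (80, needs YSB). The regions which are found.  (Copy of `FDS` of `dpg`,
`Pool/Agent/H5/DPG/FDS.lean`.) -/
def FDGStmt : Prop :=
  ∀ (S : Game → List Bool → List Bool) (C : Game → List (Bool × List Bool)) (g : Game)
    (X : List Bool), Snd g (S g) → Sub g X → ∀ q ∈ fd S C g X,
    (fs g (att q.1 g X q.2)).Nonempty ∧
    Dmn (own g) (pri g) (fun v w => w ∈ suc g v) (fs g X) q.1 (fs g (att q.1 g X q.2)) ∧
    ∀ L : List Bool, L ≠ [] → Lab g (dif g X (att q.1 g X q.2)) L →
      Lab g X (jn g q.1 (att q.1 g X q.2) L)

/-- **RCG** (60, needs FDG). Soundness of the recursion.  (Copy of `RCS` of `dpg`.  If `X` is empty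
`Lab g X (msk ..)` is trivial.) -/
def RCGStmt : Prop :=
  ∀ (S : Game → List Bool → List Bool) (C : Game → List (Bool × List Bool))
    (R : Game → List Bool → List Bool) (g : Game), Snd g (S g) → Snd g (R g) →
    ∀ t : ℕ, Snd g (rcg S C R g t)

/-- **LVG** (100, needs FDG, RCG). Completeness of the recursion.  (Copy of `LVC` of `dpg`.  Induction
on `t`; the set `nx S C g X` is a subgame with fewer vertices (`FDG`, `MPR`); the second call of `zs` is
for `dif g X B'` with `B' = att (!pl g X) g X (bad g X L)`, `BDM`, `ATL`.) -/
def LVGStmt : Prop :=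
  ∀ (S : Game → List Bool → List Bool) (C : Game → List (Bool × List Bool))
    (R : Game → List Bool → List Bool) (g : Game) (P : Finset ℕ → Prop),
    0 < g.length → Snd g (S g) → Snd g (R g) → (∀ F F' : Finset ℕ, F' ⊆ F → P F → P F') →
    (∀ (X B' : List Bool) (j : Bool), Sub g X → P (fs g X) → fd S C g X = [] →
      Sub g (dif g X B') → fs g B' ⊆ fs g X → (fs g B').Nonempty →
      Dmn (own g) (pri g) (fun v w => w ∈ suc g v) (fs g X) j (fs g B') →
      Cls g X j (fs g B') → R g (dif g X B') ≠ []) →
    ∀ (t : ℕ) (X : List Bool), Sub g X → P (fs g X) → cnt X < t → rcg S C R g t X ≠ []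

/-- **ONA** (60). Attractors when all vertices are owned by `q`: `v` is in the attractor iff a path in
`X` leads from `v` to `T`.  (`X` need not be a subgame here.  The iterates of `ats`; or `atl_thm`: `→` by
the ranks, `←` by the last property of `IsAtr`.) -/
def ONAStmt : Prop :=
  ∀ (g : Game) (q : Bool) (X T : List Bool), X.length = g.length → (∀ v ∈ fs g X, own g v = q) →
    ∀ v, v ∈ fs g (att q g X T) ↔ ∃ w, Relation.ReflTransGen
      (fun a b => a ∈ fs g X ∧ b ∈ fs g X ∧ b ∈ suc g a) v w ∧ w ∈ fs g X ∧ w ∈ fs g T

/-- **ONW** (90, needs ONA). The winner when all vertices are owned by `q`.  (`W v ≠ q`, `v ∈ one1`: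
go to `u` and then along the closed walk for ever; this play is won by `q`, and by `W v` as `W v` owns
nothing.  `W v = q`: the play `x n = σ^[n] v` is won by `q` (`stay`); it is periodic from some time on,
or: take `N` with `pri (x n) ≥ p` for `n ≥ N`, and two times `n < m` after `N` with `x n = x m` and
`pri (x n) = p` (pigeonhole); `u = x n`.) -/
def ONWStmt : Prop :=
  ∀ (g : Game) (q : Bool) (X : List Bool) (W : ℕ → Bool) (σ : ℕ → ℕ), Sub g X →
    (∀ v ∈ fs g X, own g v = q) →
    SolS (own g) (pri g) (fun v w => w ∈ suc g v) (fs g X) W σ →
    ∀ v ∈ fs g X, (v ∈ fs g (one1 q g X) ↔ W v = q)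

/-- **ONS** (50, needs ONW). Soundness and completeness of `one`.  (`dta_row atr_row` gives `W`, `σ`;
`SolS` only depends on the values of `W` on `fs g X`: a row of its own if you wish.) -/
def ONSStmt : Prop :=
  (∀ g : Game, Snd g (one g)) ∧
  ∀ (g : Game) (X : List Bool) (q : Bool), 0 < g.length → X.length = g.length →
    (∀ v ∈ fs g X, own g v = q) → one g X ≠ []

/-- **LSN** (30, needs RCG, ONS). Soundness of `lvs`. -/
def LSNStmt : Prop := ∀ (s : ℕ) (g : Game), Snd g (lvs s g)

/-- **LSC** (80, needs LVG, CDC, YSB, ONS, LSN). Completeness of `lvs`.  (Induction on `s`;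
`P F` = some player has at most `s + 1` vertices in `F`.  If `fd one c0 g X = []`, a nonempty region
`B` of `j` has vertices of `j` and vertices of `!j`: otherwise `B ⊆ fs g (vm g q)` for `q = j` or
`q = !j`, and `CDC` with the pair `(j, vm g q) ∈ c0 g`; `one` solves `yy ⊆ vm g q`.  So both players have
fewer vertices in `X \ B` than in `X`.) -/
def LSCStmt : Prop :=
  ∀ (s : ℕ) (g : Game) (X : List Bool) (q : Bool), 0 < g.length → Sub g X →
    (fo g X q).card ≤ s → lvs s g X ≠ []

/-- **CTM** (50). The candidates of `ct`.  (If `t > 0` and there are fewer than `t` vertices of `!j` in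
`B`, fill up the list with any number.) -/
def CTMStmt : Prop :=
  ∀ (t : ℕ) (g : Game), 0 < g.length →
    (∀ (j : Bool) (B : Finset ℕ), B ⊆ Finset.range g.length →
      (B.filter fun v => own g v ≠ j).card ≤ t → ∃ T : List Bool, (j, T) ∈ ct t g ∧ B ⊆ fs g T) ∧
    ∀ q ∈ ct t g, ((fs g q.2).filter fun v => own g v ≠ q.1).card ≤ t

/-- **STC** (90, needs LVG, CDC, YSB, CTM, LSC, LSN). Completeness of `sol`.  (`P` = everything.  Let
`fd = []` and `B` a nonempty region of `j`, closed.  `B` has more than `t` vertices of `!j`: otherwise
`CTM` and `CDC` (`LSC` for `yy`, in which `!j` has at most `t` vertices).  If `X \ B` had more than `t`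
vertices of `j` there would be an arc between one of these and a vertex of `!j` in `B` (`Mix`, take
subsets with `t` elements); but there is none, in both directions.  So `LSC` for `X \ B`.) -/
def STCStmt : Prop :=
  ∀ (t : ℕ) (g : Game), 0 < g.length → Valid g → Mix t g → sol t g ≠ []

/-- **TPG** (40, needs RCG, LSN). Soundness of `sol`.  (Copy of `TOP` of `dpg`.) -/
def TPGStmt : Prop :=
  ∀ (t : ℕ) (g : Game), Valid g → sol t g ≠ [] → (sol t g).length = g.length ∧
    ∀ v < g.length, Win g ((sol t g).getD v false) v

/-- **MXC** (30). `cmp g` has the same owners and successors. -/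
def MXCStmt : Prop := ∀ (t : ℕ) (g : Game), Valid g → Mix t g → Mix t (cmp g)

/-! ## Polynomial time -/

/-- **PON** (70). Games with one owner.  (`pma_all`, `pv1_row`.) -/
def PONStmt : Prop := PTime (fun p : Game × List Bool => one p.1 p.2)

/-- **PCT** (60). The candidates.  (Induction on `t` for `tup`.) -/
def PCTStmt : Prop := PTime c0 ∧ ∀ t : ℕ, PTime (ct t)

/-- **PFG** (60). The regions which are found.  (`pma_all`; compare `PFN` of `dpg`.) -/
def PFGStmt : Prop :=
  ∀ (S : Game → List Bool → List Bool) (C : Game → List (Bool × List Bool)),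
    PTime (fun p : Game × List Bool => S p.1 p.2) → PTime C →
    PTime (fun p : Game × List Bool => fd S C p.1 p.2) ∧
    PTime (fun p : Game × List Bool => nx S C p.1 p.2) ∧
    PTime (fun p : Game × List Bool => f1 S C p.1 p.2)

/-- **PUG** (40, needs PFG). One step of the recursion.  (Copy of `PUP` of `dpg`; `pzs_all`.) -/
def PUGStmt : Prop :=
  ∀ (S : Game → List Bool → List Bool) (C : Game → List (Bool × List Bool))
    (R : Game → List Bool → List Bool),
    PTime (fun p : Game × List Bool => S p.1 p.2) → PTime C →
    PTime (fun p : Game × List Bool => R p.1 p.2) →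
    PTime (fun p : Game × List Bool × List Bool => upp S C R p.1 p.2.1 p.2.2)

/-- **PLG** (80, needs PUG, PFG). The recursion.  (Copy of `PLV` of `dpg`.) -/
def PLGStmt : Prop :=
  ∀ (S : Game → List Bool → List Bool) (C : Game → List (Bool × List Bool))
    (R : Game → List Bool → List Bool),
    PTime (fun p : Game × List Bool => S p.1 p.2) → PTime C →
    PTime (fun p : Game × List Bool => R p.1 p.2) →
    PTime (fun p : Game × List Bool => lvg S C R p.1 p.2)

/-- **PSO** (30, needs PLG, PON, PCT). The algorithm. -/
def PSOStmt : Prop := ∀ t : ℕ, PTime (sol t)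

/-- **FNG** (40, needs STC, TPG, MXC, PSO). The theorem, with `A g = sol t (cmp g)`.  (`bot_all`, `cmw`,
as in `Pool/Agent/H5/DPG/FI2.lean`.  For `g = []` take `[]`.) -/
def FNGStmt : Prop :=
  ∀ t : ℕ, ∃ A : Game → List Bool, N68a2faeb.IsPolyTime A ∧
    (∀ g : Game, Valid g → A g ≠ [] → (A g).length = g.length ∧
      ∀ v < g.length, Win g ((A g).getD v false) v) ∧
    ∀ g : Game, Valid g → Mix t g → (A g).length = g.length ∧
      ∀ v < g.length, Win g ((A g).getD v false) v

end Pool.BHG
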