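import Pool.Agent.H5.BHG.Stmts

/-!
# The strong form: closed sets of successors which meet

THEOREM.  For every `t ≥ 1` there is a polynomial time algorithm, never wrong, which solves all parity
games in which any `t` vertices of `◇` and any `t` vertices of `□` contain a vertex `v` of `◇` and a
vertex `w` of `□` which are joined by an arc OR HAVE A COMMON SUCCESSOR.  (The same algorithm `sol t`.)
For instance: all games on a digraph all whose outdegrees are greater than `n / 2`; all games on a
random digraph with arc probability `p`, with probability at least `1 - n ^ 2 (1 - p ^ 2) ^ n`.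

The new point: if a vertex of `◇` and a vertex of `□` of a subgame `X` which arises in the algorithm
have a common successor `u` in `g`, then `u ∈ X` (`Com`, row CMA): when an attractor of `i` is removed,
the vertices of `i` which stay have no successors in it.

Same rules as for the other rows of the board `bhg`.
-/

set_option autoImplicit false

namespace Pool.BHG

open Filter TMLib Pool.PG Pool.DPG

/-- Any `t` vertices of `◇` and any `t` vertices of `□` contain two which are joined by an arc or have
a common successor. -/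
def Mx2 (t : ℕ) (g : Game) : Prop :=
  ∀ D B : Finset ℕ, (∀ v ∈ D, v < g.length ∧ own g v = true) →
    (∀ w ∈ B, w < g.length ∧ own g w = false) → D.card = t → B.card = t →
    ∃ v ∈ D, ∃ w ∈ B, w ∈ suc g v ∨ v ∈ suc g w ∨ ∃ u ∈ suc g v, u ∈ suc g w

/-- The common successors of two vertices of `F` with different owners are in `F`. -/
def Com (g : Game) (F : Finset ℕ) : Prop :=
  ∀ v ∈ F, ∀ w ∈ F, own g v ≠ own g w → ∀ u ∈ suc g v, u ∈ suc g w → u ∈ F

/-- **CMA** (30). `Com` is kept when an attractor is removed.  (`atl_thm`, fourth clause of `IsAtr`: one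
of `v`, `w` is owned by `i`.) -/
def CMAStmt : Prop :=
  ∀ (g : Game) (i : Bool) (X T : List Bool), Sub g X → Com g (fs g X) →
    Com g (fs g (dif g X (att i g X T)))

/-- **LVH** (100, needs FDG, RCG). Completeness of the recursion, `P` is kept when attractors are
removed.  (As LVG; the sets `nx S C g X` are of this form; `nA g X = att (pl g X) g X (tp g X)`.) -/
def LVHStmt : Prop :=
  ∀ (S : Game → List Bool → List Bool) (C : Game → List (Bool × List Bool))
    (R : Game → List Bool → List Bool) (g : Game) (P : Finset ℕ → Prop),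
    0 < g.length → Snd g (S g) → Snd g (R g) →
    (∀ (i : Bool) (X T : List Bool), Sub g X → P (fs g X) →
      P (fs g (dif g X (att i g X T)))) →
    (∀ (X B' : List Bool) (j : Bool), Sub g X → P (fs g X) → fd S C g X = [] →
      Sub g (dif g X B') → fs g B' ⊆ fs g X → (fs g B').Nonempty →
      Dmn (own g) (pri g) (fun v w => w ∈ suc g v) (fs g X) j (fs g B') →
      Cls g X j (fs g B') → R g (dif g X B') ≠ []) →
    ∀ (t : ℕ) (X : List Bool), Sub g X → P (fs g X) → cnt X < t → rcg S C R g t X ≠ []

/-- **STD** (90, needs LVH, CMA, CDC, YSB, CTM, LSC, LSN). Completeness of `sol`.  (As STC, with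
`P = Com g`.  New case: `v` in `B` owned by `!j`, `w` in `X \ B` owned by `j`, common successor `u`:
`u ∈ X` by `Com`; `u ∈ B` by `Dmn`, and `u ∉ B` by `Cls`.) -/
def STDStmt : Prop :=
  ∀ (t : ℕ) (g : Game), 0 < g.length → Valid g → Mx2 t g → sol t g ≠ []

/-- **MXE** (30). `cmp g` has the same owners and successors. -/
def MXEStmt : Prop := ∀ (t : ℕ) (g : Game), Valid g → Mx2 t g → Mx2 t (cmp g)

/-- The weight of `E` in the random digraph with arc probability `p`. -/
noncomputable def wt {n : ℕ} (p : ℝ) (E : Fin n → Fin n → Bool) : ℝ :=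
  ∏ v, ∏ w, if E v w = true then p else 1 - p

/-- Any two vertices have a common successor. -/
def Cs {n : ℕ} (E : Fin n → Fin n → Bool) : Prop :=
  ∀ v w, v ≠ w → ∃ u, E v u = true ∧ E w u = true

open Classical in
/-- **WTP** (80). (Union bound over the pairs `v ≠ w`; for a pair, the sum over the `E` with
`¬ (E v u ∧ E w u)` for all `u` is `(1 - p ^ 2) ^ n`: `Finset.prod_univ_sum` or
`Fintype.sum_pow`-like lemmas, applied twice (rows, then entries).) -/
def WTPStmt : Prop :=
  ∀ (n : ℕ) (p : ℝ), 0 ≤ p → p ≤ 1 →
    ∑ E ∈ Finset.univ.filter (fun E : Fin n → Fin n → Bool => ¬ Cs E), wt p E ≤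
      (n : ℝ) ^ 2 * (1 - p ^ 2) ^ n

/-- **GVM** (40). The games on such a digraph. -/
def GVMStmt : Prop :=
  ∀ (n : ℕ) (o : Fin n → Bool) (q : Fin n → ℕ) (E : Fin n → Fin n → Bool), 2 ≤ n → Cs E →
    (dgame o q E).length = n ∧ Valid (dgame o q E) ∧ ∀ t, 1 ≤ t → Mx2 t (dgame o q E)

open Classical in
/-- **FNH** (60, needs STD, TPG, MXE, PSO, WTP, GVM). The theorem, with `A g = sol t (cmp g)`. -/
def FNHStmt : Prop :=
  ∀ t : ℕ, 1 ≤ t → ∃ A : Game → List Bool, N68a2faeb.IsPolyTime A ∧
    (∀ g : Game, Valid g → A g ≠ [] → (A g).length = g.length ∧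
      ∀ v < g.length, Win g ((A g).getD v false) v) ∧
    (∀ g : Game, Valid g → Mx2 t g → (A g).length = g.length ∧
      ∀ v < g.length, Win g ((A g).getD v false) v) ∧
    ∀ (n : ℕ) (p : ℝ), 2 ≤ n → 0 ≤ p → p ≤ 1 →
      ∑ E ∈ Finset.univ.filter (fun E : Fin n → Fin n → Bool =>
        ∃ (o : Fin n → Bool) (q : Fin n → ℕ), A (dgame o q E) = []), wt p E ≤
        (n : ℝ) ^ 2 * (1 - p ^ 2) ^ n

end Pool.BHG
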