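import Pool.Agent.H59.PG.AllC

/-!
# The bound `n / 2` for the outdegrees is sharp

THEOREM.  For every `ε > 0`: parity games are solvable in polynomial time if (and only if) the parity
games in which all outdegrees are at least `(1 / 2 - ε) n` are.  (If all outdegrees are greater than
`n / 2` they are: main theorem of the board `bhg`.)

Same rules as for the other rows of the board `bhg`; files import `Pool.Agent.H5.BHG.Stmts3`; the rows
`det_all`, `win_row`, `sol_all`, `pv1_row`, `bot_all`, `bin_all`, `cmw` of `Pool.PG` are proved and
imported here.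
-/

set_option autoImplicit false

namespace Pool.BHG

open Filter TMLib Pool.PG

/-- `N = g.length`.  New vertices: `c N` vertices of `◇` of priority `0`, numbered from `N`, and `c N`
vertices of `□` of priority `1`, numbered from `N + c N`; all arcs inside each of these two sets; and
all arcs from the vertices of `◇` of `g` to the second set and from the vertices of `□` of `g` to the
first set. -/
def pad (c : ℕ) (g : Game) : Game :=
  ((g.map fun e => (e.1, e.2 ++ (List.range (c * g.length)).map fun x =>
      x + (if e.1.1 = true then g.length + c * g.length else g.length))) ++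
    (List.range (c * g.length)).map fun _ =>
      ((true, 0), (List.range (c * g.length)).map fun x => x + g.length)) ++
    (List.range (c * g.length)).map fun _ =>
      ((false, 1), (List.range (c * g.length)).map fun x => x + (g.length + c * g.length))

/-- **PDD** (50). Lengths and outdegrees. -/
def PDDStmt : Prop :=
  ∀ (c : ℕ) (g : Game), (pad c g).length = (2 * c + 1) * g.length ∧
    ∀ v < (pad c g).length, c * g.length ≤ (suc (pad c g) v).toFinset.card

/-- **PDW** (100). The winners do not change.  (Let `Sol g W σ` (`det_all`); then `Sol (pad c g) W' σ'`,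
where `W'`, `σ'` are `W`, `σ` on `g`, `W' = true` on the first new set and `W' = false` on the second,
and `σ' v = v` there; a play won by `◇` stays in `g`, or it is from some time on in the first new set.
Then `win_row`.) -/
def PDWStmt : Prop :=
  ∀ (c : ℕ) (g : Game), 1 ≤ c → Valid g → Valid (pad c g) ∧
    ∀ v < g.length, ∀ i : Bool, Win (pad c g) i v ↔ Win g i v

/-- **PDP** (40). -/
def PDPStmt : Prop := ∀ c : ℕ, PTime (pad c)

/-- **THR** (60, needs PDD, PDW, PDP). (`c ≥ 1 / (4 ε)`, so `c N ≥ (1 / 2 - ε) (2 c + 1) N`;
`B' p = B (pad c (cmp p.1), min p.2 p.1.length)`; `bin_all` gives `PTime B`, `bot_all` gives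
`IsPolyTime B'`, `cmw`.) -/
def THRStmt : Prop :=
  ∀ ε : ℝ, 0 < ε →
    ((∃ B : Game × ℕ → Bool, N68a2faeb.IsPolyTime B ∧
      ∀ (g : Game) (v : ℕ), Valid g → v < g.length → (B (g, v) = true ↔ Win g true v)) ↔
    ∃ B : Game × ℕ → Bool, N68a2faeb.IsPolyTime B ∧
      ∀ (g : Game) (v : ℕ), Valid g → v < g.length →
        (∀ u < g.length, (1 / 2 - ε) * g.length ≤ ((suc g u).toFinset.card : ℝ)) →
        (B (g, v) = true ↔ Win g true v))

end Pool.BHG
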