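import Pool.Agent.H5.BHG.All

/-!
# Parity games in which all outdegrees are at least `n / 2 - C` (extension of the board `bhg`)

THEOREM.  For every `t ≥ 1` there is a polynomial time algorithm, never wrong, which solves all parity
games such that (`Nx2 t`): for every vertex `v`, any `t` vertices `≠ v` of the player of `v` which are
not successors of `v`, and any `t` vertices of the other player which do not MEET `v`, contain two (one
of each player) which meet.  (Two vertices meet if they are joined by an arc or have a common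
successor.)  For instance: all games all whose outdegrees are greater than `(n - t) / 2`.

Idea.  Let `B` be a region of `j` in `X`, closed, and `v ∈ X \ B` a vertex of `j`.  So `v ∉ B` has no
successor in `B`: `B` is in the set `T_v` of all vertices `≠ v` which are not successors of `v`
(candidates `c2`), so in `yy g X (j, T_v)`.  The vertices of `!j` in `yy` do not meet `v` (`YSB`, `Com`).
So `yy` is solved by `sl t` (row SD2, as `STD`), and `B` is found (`CDC`).  Hence if nothing is found,
`X \ B` has no vertices of `j`, and `lvs t` solves it (`LSC`).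

All rows of the board `bhg` are proved and imported (`Pool/Agent/H5/BHG/All.lean`: `ysb_thm`, `cdc_all`,
`lvh_all`, `lsc_all`, `lsn_all`, `rcg_all`, `cma_thm`, `ctm_thm`, `plg_all`, `pct_thm`, `pso_all` ...):
USE THEM DIRECTLY, not as hypotheses.
Row `XXX` is a theorem `Pool.BHG.xxx_thm : XXXStmt` in `Pool/Agent/H<k>/BHG/XXX.lean`; FN2 has the other
rows as hypotheses.  Helper lemmas with names which begin with `xxx_`.  No double quotes.
-/

set_option autoImplicit false

namespace Pool.BHG

open Filter TMLib Pool.PG Pool.DPG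

/-- `v` and `w` are joined by an arc or have a common successor. -/
def Mt (g : Game) (v w : ℕ) : Prop := w ∈ suc g v ∨ v ∈ suc g w ∨ ∃ u ∈ suc g v, u ∈ suc g w

/-- Any `t` vertices of `◇` and any `t` vertices of `□` of the set `F` contain two which meet. -/
def MO (t : ℕ) (g : Game) (F : Finset ℕ) : Prop :=
  ∀ D B : Finset ℕ, (∀ v ∈ D, v ∈ F ∧ own g v = true) →
    (∀ w ∈ B, w ∈ F ∧ own g w = false) → D.card = t → B.card = t →
    ∃ v ∈ D, ∃ w ∈ B, Mt g v w

/-- The condition of the theorem. -/
def Nx2 (t : ℕ) (g : Game) : Prop :=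
  ∀ v < g.length, ∀ D B : Finset ℕ,
    (∀ d ∈ D, d < g.length ∧ own g d = own g v ∧ d ≠ v ∧ d ∉ suc g v) →
    (∀ w ∈ B, w < g.length ∧ own g w ≠ own g v ∧ ¬ Mt g v w) → D.card = t → B.card = t →
    ∃ d ∈ D, ∃ w ∈ B, Mt g d w

/-- The algorithm `sol` on subgames. -/
def sl (t : ℕ) (g : Game) (X : List Bool) : List Bool := lvg (lvs t) (ct t) (lvs t) g X

/-- The candidates: for every vertex `v` the vertices `≠ v` which are not successors of `v`. -/
def c2 (g : Game) : List (Bool × List Bool) :=
  (List.range g.length).map fun v =>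
    (own g v, msk g.length fun u => !decide (u = v) && !decide (u ∈ suc g v))

/-- The algorithm. -/
def so2 (t : ℕ) (g : Game) : List Bool := lvg (sl t) c2 (lvs t) g (msk g.length fun _ => true)

/-- **SD2** (80). Completeness of `sl`.  (Copy of `Pool/Agent/H5/BHG/STD.lean`, with
`P F = Com g F ∧ F ⊆ fs g Y` in `lvh_all`, and `MO` in place of `Mx2`.) -/
def SD2Stmt : Prop :=
  ∀ (t : ℕ) (g : Game) (Y : List Bool), 0 < g.length → Sub g Y → Com g (fs g Y) →
    MO t g (fs g Y) → sl t g Y ≠ []

/-- **SN2** (20). Soundness of `sl`.  (`rcg_all`, `lsn_all`.) -/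
def SN2Stmt : Prop := ∀ (t : ℕ) (g : Game), Snd g (sl t g)

/-- **TC2** (80, needs SD2, SN2 as hypotheses). Completeness of `so2`.  (`lvh_all` with `S = sl t`,
`C = c2`, `R = lvs t`, `P = Com g`, start as in `STD`.  Given `X`, `B'`, `j` with `fd = []`: if there is
`v ∈ fs g X \ fs g B'` owned by `j`, then `B' ⊆ T_v` by `Cls`, and `cdc_all` with `q = (j, T_v)` gives
`fd ≠ []`: `yy` is a subgame (`ysb_thm`), `Com g` holds for it (`cma_thm`), and `MO t g (fs g yy)` follows
from `Nx2` for `v`.  So `fo g (dif g X B') j` is empty, use `lsc_all`.) -/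
def TC2Stmt : Prop :=
  ∀ (t : ℕ) (g : Game), 0 < g.length → Valid g → Nx2 t g → so2 t g ≠ []

/-- **TP2** (40, needs SN2). Soundness of `so2`.  (Copy of `Pool/Agent/H3/BHG/TPG.lean`.) -/
def TP2Stmt : Prop :=
  ∀ (t : ℕ) (g : Game), Valid g → so2 t g ≠ [] → (so2 t g).length = g.length ∧
    ∀ v < g.length, Win g ((so2 t g).getD v false) v

/-- **MX2** (30). `cmp g` has the same owners and successors.  (As `Pool/Agent/H4/BHG/MXE.lean`.) -/
def MX2Stmt : Prop := ∀ (t : ℕ) (g : Game), Valid g → Nx2 t g → Nx2 t (cmp g)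

/-- **MN2** (10). -/
def MN2Stmt : Prop := ∀ (t : ℕ) (g : Game), Mx2 t g → Nx2 t g

/-- **HL2** (40). The sets of successors of `v` and of `w ∈ B` and the set `D` are disjoint (otherwise
we are done), so `n ≥ |suc v| + |suc w| + t`.  (`1 ≤ t` gives an element of `B`.  As
`Pool/Agent/H5/BHG/HLF.lean`.) -/
def HL2Stmt : Prop :=
  ∀ (t : ℕ) (g : Game), 1 ≤ t → Valid g →
    (∀ v < g.length, g.length < 2 * (suc g v).toFinset.card + t) → Nx2 t g

/-- **PC2** (50). The candidates.  (As `Pool/Agent/H62/BHG/PCT.lean`.) -/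
def PC2Stmt : Prop := PTime c2

/-- **PS2** (30, needs PC2). The algorithm.  (As `Pool/Agent/H71/BHG/PSO.lean`: `plg_all` twice.) -/
def PS2Stmt : Prop := ∀ t : ℕ, PTime (so2 t)

open Classical in
/-- **FN2** (60, needs TC2, TP2, MX2, MN2, PS2 as hypotheses). The theorem, with
`A g = so2 t (cmp g)`.  (Copy of `Pool/Agent/H55/BHG/FNH.lean`; `wtp5_thm`, `gvm5_thm`, `MN2`.) -/
def FN2Stmt : Prop :=
  ∀ t : ℕ, 1 ≤ t → ∃ A : Game → List Bool, N68a2faeb.IsPolyTime A ∧
    (∀ g : Game, Valid g → A g ≠ [] → (A g).length = g.length ∧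
      ∀ v < g.length, Win g ((A g).getD v false) v) ∧
    (∀ g : Game, Valid g → Nx2 t g → (A g).length = g.length ∧
      ∀ v < g.length, Win g ((A g).getD v false) v) ∧
    ∀ (n : ℕ) (p : ℝ), 2 ≤ n → 0 ≤ p → p ≤ 1 →
      ∑ E ∈ Finset.univ.filter (fun E : Fin n → Fin n → Bool =>
        ∃ (o : Fin n → Bool) (q : Fin n → ℕ), A (dgame o q E) = []), wt p E ≤
        (n : ℝ) ^ 2 * (1 - p ^ 2) ^ n

end Pool.BHG
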