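import Pool.Agent.H5.BHG.All

/-!
# Parity games in which all outdegrees are at least `n / 2 - C log n` (second extension of `bhg`)

THEOREM.  For every `C` there is a polynomial time algorithm, never wrong, which solves all parity games
in which all outdegrees are at least `n / 2 - C log n`.

Idea.  Let `B` be a region of `j` in `X`, closed, and `v ∈ X \ B` a vertex of `j`.  So `v ∉ B` has no
successor in `B`: `B` is in the set `T_v` of all vertices `≠ v` which are not successors of `v`
(candidates `c2`), so in `yy g X (j, T_v)`.  The vertices `w` of `!j` in `yy` do not meet `v` (`YSB`,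
`Com`), so at most `O(log n)` vertices of `T_v` are not successors of `w`.  In such a game (`lg c`):
closed regions of `!j` whose complement has a vertex `w` of `!j` are in `T_w`, so have `O(log n)` vertices
(`bru`); and a region of `j` which has a vertex `w` of `!j` has a complement with `O(log n)` vertices.

All rows of the boards `dpg` and `bhg` are proved and imported (`Pool/Agent/H5/BHG/All.lean`,
`Pool/Agent/H5/DPG/All.lean`: `ysb_thm`, `cdc_all`, `lvh_all`, `lvg_all`, `rcg_all`, `cma_thm`, `plg_all`,
`pct_thm`, `pso_all`, `onsS_all` (one), `brs_all`, `brc_all`, `pbr_all` (bru), `fsb_thm` ...): USE THEM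
DIRECTLY.  Row `XXX` is a theorem `Pool.BHG.xxx_thm : XXXStmt` in `Pool/Agent/H<k>/BHG/XXX.lean`.  Helper
lemmas with names which begin with `xxx_`.  No double quotes.
-/

set_option autoImplicit false

namespace Pool.BHG

open Filter TMLib Pool.PG Pool.DPG

/-- `v` and `w` are joined by an arc or have a common successor. -/
def Mt3 (g : Game) (v w : ℕ) : Prop := w ∈ suc g v ∨ v ∈ suc g w ∨ ∃ u ∈ suc g v, u ∈ suc g w

/-- The condition: if `v`, `w` have different owners and do not meet, few vertices are successors of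
neither. -/
def Lx (c : ℕ) (g : Game) : Prop :=
  ∀ v < g.length, ∀ w < g.length, own g w ≠ own g v → ¬ Mt3 g v w →
    2 ^ ((Finset.range g.length).filter fun u => u ∉ suc g v ∧ u ∉ suc g w).card ≤
      (g.length + 2) ^ c

/-- Games with one owner or with few vertices. -/
def sb (c : ℕ) (g : Game) (X : List Bool) : List Bool :=
  if one g X = [] then bru c g X else one g X

/-- The candidates `T_v`: for every vertex `v` the vertices `≠ v` which are not successors of `v`. -/
def c4 (g : Game) : List (Bool × List Bool) :=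
  (List.range g.length).map fun v =>
    (own g v, msk g.length fun u => !decide (u = v) && !decide (u ∈ suc g v))

/-- The candidates for `lg`. -/
def c3 (g : Game) : List (Bool × List Bool) := c0 g ++ c4 g

/-- Games in which the vertices of one player have few non-successors. -/
def lg (c : ℕ) (g : Game) (X : List Bool) : List Bool := lvg (sb c) c3 (sb c) g X

/-- The algorithm. -/
def so3 (c : ℕ) (g : Game) : List Bool := lvg (lg c) c4 one g (msk g.length fun _ => true)

/-- **SB3** (40). Soundness and completeness of `sb` (`onsS_all`, `brs_all`, `brc_all`). -/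
def SB3Stmt : Prop :=
  (∀ (c : ℕ) (g : Game), Snd g (sb c g)) ∧
  (∀ (c : ℕ) (g : Game) (X : List Bool) (q : Bool), 0 < g.length → X.length = g.length →
    (∀ v ∈ fs g X, own g v = q) → sb c g X ≠ []) ∧
  ∀ (c : ℕ) (g : Game) (X : List Bool), 0 < g.length → Sub g X →
    2 ^ (fs g X).card ≤ (g.length + 2) ^ c → sb c g X ≠ []

/-- **LG3** (100, needs SB3 as hypothesis). Completeness of `lg`.  (`lvg_all` with `S = R = sb c`,
`C = c3`, `P F = (F ⊆ fs g Y)`.  Given `X`, `B'`, `j`, `fd = []`, show that `sb` solves `dif g X B'`.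
`j = i`: if `w ∈ fs g X \ fs g B'` is owned by `i`, then `fs g B' ⊆ T_w` (`Cls`), candidate
`(i, T_w) ∈ c3 g`; `yy g X (i, T_w)` has at most as many vertices as the filter of the hypothesis for `w`
(`YSB`: `yy ⊆ X ∩ T_w`), so `cdc_all` and `fd ≠ []`; hence all vertices of `X \ B'` are owned by `!i`.
`j = !i`: if no vertex of `B'` is owned by `i`, candidate `(j, vm g j) ∈ c0 g` and `cdc_all`; else let
`w ∈ B'` be owned by `i`: no vertex of `X \ B'` is a successor of `w` (`Dmn`), so `X \ B'` is small.) -/
def LG3Stmt : Prop :=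
  ∀ (c : ℕ) (g : Game) (Y : List Bool) (i : Bool), 0 < g.length → Sub g Y →
    (∀ w ∈ fs g Y, own g w = i →
      2 ^ ((fs g Y).filter fun u => u ∉ suc g w).card ≤ (g.length + 2) ^ c) → lg c g Y ≠ []

/-- **SN3** (20, needs SB3 as hypothesis). Soundness of `lg` (`rcg_all`). -/
def SN3Stmt : Prop := ∀ (c : ℕ) (g : Game), Snd g (lg c g)

/-- **TC3** (80, needs LG3, SN3 as hypotheses). Completeness of `so3`.  (Copy of
`Pool/Agent/H5/BHG/TC2.lean`: `lvh_all` with `S = lg c`, `C = c4`, `R = one`, `P = Com g`.  Given `X`, `B'`,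
`j` with `fd = []`: if there is `v ∈ fs g X \ fs g B'` owned by `j`, then `B' ⊆ T_v` by `Cls`, and
`cdc_all` with `q = (j, T_v)` gives `fd ≠ []`: `LG3` for `yy` and `i = !j`; a vertex `w` of `yy` owned by
`!j` does not meet `v`, and `fs g yy ⊆ T_v`.  So all vertices of `X \ B'` are owned by `!j`, `onsS_all`.) -/
def TC3Stmt : Prop :=
  ∀ (c : ℕ) (g : Game), 0 < g.length → Valid g → Lx c g → so3 c g ≠ []

/-- **TP3** (40, needs SN3 as hypothesis). Soundness of `so3`.  (Copy of `H5/BHG/TP2.lean`.) -/
def TP3Stmt : Prop :=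
  ∀ (c : ℕ) (g : Game), Valid g → so3 c g ≠ [] → (so3 c g).length = g.length ∧
    ∀ v < g.length, Win g ((so3 c g).getD v false) v

/-- **MX3** (30). `cmp g` has the same owners and successors.  (As `mx25_thm` in
`Pool/Agent/H5/BHG/TP2.lean`.) -/
def MX3Stmt : Prop := ∀ (c : ℕ) (g : Game), Valid g → Lx c g → Lx c (cmp g)

/-- **HL3** (50). `c = ⌈2 C⌉₊ + 1` or so.  The sets of successors of `v` and `w` are disjoint (they do
not meet), so at most `n - |suc v| - |suc w| ≤ 2 C log n` vertices are in none of them, and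
`2 ^ (2 C log n) ≤ n ^ (2 C)` (`log 2 ≤ 1`).  (`C` may be negative; `n = 1`: `log n = 0`.) -/
def HL3Stmt : Prop :=
  ∀ C : ℝ, ∃ c : ℕ, ∀ g : Game, Valid g →
    (∀ v < g.length, (g.length : ℝ) / 2 - C * Real.log g.length ≤ ((suc g v).toFinset.card : ℝ)) →
    Lx c g

/-- **PS3** (60). The algorithm.  (As `Pool/Agent/H71/BHG/PSO.lean`, `Pool/Agent/H5/BHG/PC2.lean`:
`pbr_all`, `pon_thm`, `pct_thm`, `PTime.append`, `plg_all` twice; if-then-else on `one g X = []`.) -/
def PS3Stmt : Prop := ∀ c : ℕ, PTime (so3 c)

/-- **FN3** (50, needs TC3, TP3, MX3, HL3, PS3 as hypotheses). The theorem, with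
`A g = so3 c (cmp g)`.  (As `Pool/Agent/H3/BHG/FN2.lean`.) -/
def FN3Stmt : Prop :=
  ∀ C : ℝ, ∃ A : Game → List Bool, N68a2faeb.IsPolyTime A ∧
    (∀ g : Game, Valid g → A g ≠ [] → (A g).length = g.length ∧
      ∀ v < g.length, Win g ((A g).getD v false) v) ∧
    ∀ g : Game, Valid g →
      (∀ v < g.length,
        (g.length : ℝ) / 2 - C * Real.log g.length ≤ ((suc g v).toFinset.card : ℝ)) →
      (A g).length = g.length ∧ ∀ v < g.length, Win g ((A g).getD v false) v

end Pool.BHG
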